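import Mathlib

/-!
Connected partitions of trees given by a parent structure, and greedy distribution of the parts of an
integer partition over the legs of a tree.
-/

set_option autoImplicit false

namespace Pool.Agent.X68.CP

open Finset

variable {n : ℕ}

/-- a partition of `D` into connected blocks whose sizes form the multiset `M` -/
def Part (T : SimpleGraph (Fin n)) (D : Finset (Fin n)) (M : Multiset ℕ) : Prop :=
  ∃ P : Finpartition D, (∀ B ∈ P.parts, (T.induce (B : Set (Fin n))).Connected) ∧
    P.parts.val.map Finset.card = M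

theorem part_empty (T : SimpleGraph (Fin n)) : Part T ∅ 0 :=
  ⟨Finpartition.empty _, by simp, by simp⟩

theorem part_extend {T : SimpleGraph (Fin n)} {D B : Finset (Fin n)} {M : Multiset ℕ}
    (h : Part T D M) (hB : (T.induce (B : Set (Fin n))).Connected) (hd : Disjoint D B) :
    Part T (D ∪ B) (B.card ::ₘ M) := by
  obtain ⟨P, hP, hM⟩ := h
  have hne : B ≠ ∅ := by
    rintro rfl
    obtain ⟨⟨x, hx⟩⟩ := hB.nonempty
    simp at hx
  have hBP : B ∉ P.parts := by
    intro hmem
    have h1 : B ⊆ D := P.le hmem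
    have h2 : Disjoint B B := hd.mono_left h1
    rw [disjoint_self] at h2
    exact hne h2
  refine ⟨P.extend hne hd rfl, ?_, ?_⟩
  · intro C hC
    have hC' : C ∈ insert B P.parts := hC
    rcases Finset.mem_insert.1 hC' with rfl | hC'
    · exact hB
    · exact hP C hC'
  · have : (P.extend hne hd rfl).parts = insert B P.parts := rfl
    rw [this, Finset.insert_val_of_notMem hBP, Multiset.map_cons, hM]

theorem connected_of_parent {T : SimpleGraph (Fin n)} (B : Finset (Fin n)) (r : Fin n) (hr : r ∈ B)
    (h : ∀ v ∈ B, v ≠ r → ∃ w ∈ B, w < v ∧ T.Adj v w) :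
    (T.induce (B : Set (Fin n))).Connected := by
  rw [SimpleGraph.connected_iff_exists_forall_reachable]
  refine ⟨⟨r, hr⟩, ?_⟩
  have key : ∀ k : ℕ, ∀ v : Fin n, v.val = k → ∀ hv : v ∈ (B : Set (Fin n)),
      (T.induce (B : Set (Fin n))).Reachable ⟨r, hr⟩ ⟨v, hv⟩ := by
    intro k
    induction k using Nat.strong_induction_on with
    | _ k ih =>
      intro v hk hv
      by_cases hvr : v = r
      · subst hvr
        exact SimpleGraph.Reachable.refl _
      · obtain ⟨w, hw, hlt, hadj⟩ := h v hv hvr
        have h1 := ih w.val (by rw [← hk]; exact hlt) w rfl hw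
        refine h1.trans (SimpleGraph.Adj.reachable ?_)
        show T.Adj w v
        exact hadj.symm
  intro w
  exact key _ w.1 rfl w.2

/-- the interval `[x, x + k)` -/
def Iv (n x k : ℕ) : Finset (Fin n) := univ.filter (fun v => x ≤ v.val ∧ v.val < x + k)

theorem mem_Iv {x k : ℕ} {v : Fin n} : v ∈ Iv n x k ↔ x ≤ v.val ∧ v.val < x + k := by
  simp [Iv]

theorem card_Iv {x k : ℕ} (h : x + k ≤ n) : (Iv n x k).card = k := by
  have : (Iv n x k).map Fin.valEmbedding = Finset.Ico x (x + k) := by
    ext y
    simp only [Finset.mem_map, mem_Iv, Fin.valEmbedding_apply, Finset.mem_Ico]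
    constructor
    · rintro ⟨v, hv, rfl⟩
      exact hv
    · rintro hy
      exact ⟨⟨y, by omega⟩, hy, rfl⟩
  have h2 := congrArg Finset.card this
  rw [Finset.card_map, Nat.card_Ico] at h2
  omega

theorem part_interval {T : SimpleGraph (Fin n)} {D : Finset (Fin n)} {M : Multiset ℕ}
    (h : Part T D M) (x : ℕ) (N : Multiset ℕ) (hpos : ∀ a ∈ N, 1 ≤ a)
    (hn : x + N.sum ≤ n)
    (hpath : ∀ v w : Fin n, x ≤ w.val → w.val + 1 = v.val → v.val < x + N.sum → T.Adj v w)
    (hD : Disjoint D (Iv n x N.sum)) : Part T (D ∪ Iv n x N.sum) (N + M) := by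
  induction N using Multiset.induction_on with
  | empty =>
    have : Iv n x (0 : Multiset ℕ).sum = ∅ := by
      ext v
      simp only [mem_Iv, Multiset.sum_zero, Finset.notMem_empty, iff_false]
      omega
    rw [this, Finset.union_empty, zero_add]
    exact h
  | cons a N ih =>
    have ha : 1 ≤ a := hpos a (Multiset.mem_cons_self _ _)
    rw [Multiset.sum_cons] at hn hpath hD
    have hsub : Iv n x N.sum ⊆ Iv n x (a + N.sum) := by
      intro v hv
      rw [mem_Iv] at hv ⊢
      omega
    have h1 := ih (fun b hb => hpos b (Multiset.mem_cons_of_mem hb)) (by omega)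
      (fun v w h1 h2 h3 => hpath v w h1 h2 (by omega)) (hD.mono_right hsub)
    have hconn : (T.induce ((Iv n (x + N.sum) a : Finset (Fin n)) : Set (Fin n))).Connected := by
      apply connected_of_parent _ (⟨x + N.sum, by omega⟩ : Fin n)
      · rw [mem_Iv]
        constructor
        · exact le_rfl
        · show x + N.sum < x + N.sum + a
          omega
      · intro v hv hne
        rw [mem_Iv] at hv
        have hne' : v.val ≠ x + N.sum := fun hh => hne (Fin.ext hh)
        refine ⟨⟨v.val - 1, by omega⟩, ?_, ?_, ?_⟩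
        · rw [mem_Iv]
          show x + N.sum ≤ v.val - 1 ∧ v.val - 1 < x + N.sum + a
          omega
        · show v.val - 1 < v.val
          omega
        · apply hpath
          · show x ≤ v.val - 1
            omega
          · show v.val - 1 + 1 = v.val
            omega
          · omega
    have hdis : Disjoint (D ∪ Iv n x N.sum) (Iv n (x + N.sum) a) := by
      rw [Finset.disjoint_union_left]
      constructor
      · apply hD.mono_right
        intro v hv
        rw [mem_Iv] at hv ⊢
        omega
      · rw [Finset.disjoint_left]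
        intro v hv hv'
        rw [mem_Iv] at hv hv'
        omega
    have h2 := part_extend h1 hconn hdis
    rw [card_Iv (by omega)] at h2
    have e : D ∪ Iv n x N.sum ∪ Iv n (x + N.sum) a = D ∪ Iv n x (a ::ₘ N).sum := by
      ext v
      simp only [Finset.mem_union, mem_Iv, Multiset.sum_cons]
      constructor
      · rintro ((h | h) | h)
        · exact Or.inl h
        · right; omega
        · right; omega
      · rintro (h | h)
        · exact Or.inl (Or.inl h)
        · by_cases hc : v.val < x + N.sum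
          · left; right; omega
          · right; omega
    rw [e] at h2
    rw [Multiset.cons_add]
    exact h2

theorem part_arms {T : SimpleGraph (Fin n)} {k : ℕ} (x : Fin k → ℕ) (g : Fin k → Multiset ℕ)
    {D : Finset (Fin n)} {M : Multiset ℕ} (h : Part T D M)
    (hpos : ∀ i, ∀ a ∈ g i, 1 ≤ a)
    (hn : ∀ i, x i + (g i).sum ≤ n)
    (hpath : ∀ i, ∀ v w : Fin n, x i ≤ w.val → w.val + 1 = v.val → v.val < x i + (g i).sum →
      T.Adj v w)
    (hD : ∀ i, Disjoint D (Iv n (x i) (g i).sum))
    (hdis : ∀ i j, i ≠ j → Disjoint (Iv n (x i) (g i).sum) (Iv n (x j) (g j).sum)) :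
    Part T (D ∪ univ.biUnion (fun i => Iv n (x i) (g i).sum)) (∑ i, g i + M) := by
  have key : ∀ s : Finset (Fin k), Part T (D ∪ s.biUnion (fun i => Iv n (x i) (g i).sum))
      (∑ i ∈ s, g i + M) := by
    intro s
    induction s using Finset.induction_on with
    | empty => simpa using h
    | insert i s hi ih =>
      have h1 := part_interval ih (x i) (g i) (hpos i) (hn i) (hpath i) (by
        rw [Finset.disjoint_union_left]
        refine ⟨hD i, ?_⟩
        rw [Finset.disjoint_biUnion_left]
        intro j hj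
        apply hdis
        rintro rfl
        exact hi hj)
      rw [Finset.sum_insert hi, Finset.biUnion_insert, add_assoc]
      have e : D ∪ (Iv n (x i) (g i).sum ∪ s.biUnion fun i => Iv n (x i) (g i).sum) =
          D ∪ s.biUnion (fun i => Iv n (x i) (g i).sum) ∪ Iv n (x i) (g i).sum := by
        rw [Finset.union_comm (Iv n (x i) (g i).sum), Finset.union_assoc]
      rw [e]
      exact h1
  exact key univ

/-! ### Distribution of parts over bins -/

/-- `M` can be distributed over bins with capacities `c`, leaving the free capacities `c'` -/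
def Fill {k : ℕ} (c : Fin k → ℕ) (M : Multiset ℕ) (c' : Fin k → ℕ) : Prop :=
  ∃ g : Fin k → Multiset ℕ, ∑ i, g i = M ∧ ∀ i, (g i).sum + c' i = c i

theorem Fill.nil {k : ℕ} (c : Fin k → ℕ) : Fill c 0 c := ⟨fun _ => 0, by simp, by simp⟩

theorem Fill.cons {k : ℕ} {c : Fin k → ℕ} {M : Multiset ℕ} {c' : Fin k → ℕ} (a : ℕ) (i : Fin k)
    (hi : a ≤ c i) (h : Fill (Function.update c i (c i - a)) M c') : Fill c (a ::ₘ M) c' := by
  obtain ⟨g, hg, hs⟩ := h
  refine ⟨Function.update g i (a ::ₘ g i), ?_, ?_⟩
  · rw [← hg, ← Finset.add_sum_erase _ _ (Finset.mem_univ i),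
      ← Finset.add_sum_erase _ g (Finset.mem_univ i)]
    rw [Function.update_self, Multiset.cons_add]
    congr 2
    apply Finset.sum_congr rfl
    intro j hj
    rw [Function.update_of_ne (Finset.ne_of_mem_erase hj)]
  · intro j
    have := hs j
    by_cases hj : j = i
    · subst hj
      rw [Function.update_self] at this ⊢
      rw [Multiset.sum_cons]
      omega
    · rw [Function.update_of_ne hj] at this ⊢
      exact this

theorem Fill.trans {k : ℕ} {c c' c'' : Fin k → ℕ} {M N : Multiset ℕ} (h1 : Fill c M c')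
    (h2 : Fill c' N c'') : Fill c (M + N) c'' := by
  obtain ⟨g, hg, hs⟩ := h1
  obtain ⟨g', hg', hs'⟩ := h2
  refine ⟨fun i => g i + g' i, ?_, ?_⟩
  · rw [Finset.sum_add_distrib, hg, hg']
  · intro i
    rw [Multiset.sum_add]
    have := hs i
    have := hs' i
    omega

theorem Fill.sum {k : ℕ} {c c' : Fin k → ℕ} {M : Multiset ℕ} (h : Fill c M c') :
    M.sum + ∑ i, c' i = ∑ i, c i := by
  obtain ⟨g, hg, hs⟩ := h
  have : ∑ i, c i = ∑ i, ((g i).sum + c' i) := Finset.sum_congr rfl (fun i _ => (hs i).symm)
  rw [this, Finset.sum_add_distrib, ← hg]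
  congr 1
  exact map_sum (Multiset.sumAddMonoidHom : Multiset ℕ →+ ℕ) g univ

theorem sum_update {k : ℕ} (c : Fin k → ℕ) (i : Fin k) (a : ℕ) (h : a ≤ c i) :
    ∑ j, Function.update c i (c i - a) j + a = ∑ j, c j := by
  rw [← Finset.add_sum_erase _ _ (Finset.mem_univ i),
    ← Finset.add_sum_erase _ c (Finset.mem_univ i), Function.update_self]
  have : ∑ j ∈ univ.erase i, Function.update c i (c i - a) j = ∑ j ∈ univ.erase i, c j := by
    apply Finset.sum_congr rfl
    intro j hj
    rw [Function.update_of_ne (Finset.ne_of_mem_erase hj)]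
  rw [this]
  omega

theorem sum_min_update {k : ℕ} (c : Fin k → ℕ) (i : Fin k) (a b : ℕ) :
    ∑ j, min (Function.update c i (c i - a) j) b ≤ ∑ j, min (c j) b := by
  apply Finset.sum_le_sum
  intro j _
  by_cases hj : j = i
  · subst hj
    rw [Function.update_self]
    omega
  · rw [Function.update_of_ne hj]

/-- one centre: all further parts can be placed greedily -/
theorem greedy1 {k : ℕ} (b s m : ℕ) (N : Multiset ℕ) (hN : ∀ a ∈ N, 1 ≤ a ∧ a ≤ m) :
    ∀ c : Fin k → ℕ, b + ∑ i, c i = s + N.sum →
      (∀ a, 1 ≤ a → a ≤ m → ∑ i, min (c i) (a - 1) + b + 1 ≤ a + s) → ∃ c', Fill c N c' := by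
  induction N using Multiset.induction_on with
  | empty => exact fun c _ _ => ⟨c, Fill.nil c⟩
  | cons a N ih =>
    intro c hc hs
    obtain ⟨h1, h2⟩ := hN a (Multiset.mem_cons_self _ _)
    have hex : ∃ i, a ≤ c i := by
      by_contra hcon
      push Not at hcon
      have e : ∑ i, min (c i) (a - 1) = ∑ i, c i := by
        apply Finset.sum_congr rfl
        intro i _
        have := hcon i
        omega
      have := hs a h1 h2
      rw [e] at this
      rw [Multiset.sum_cons] at hc
      omega
    obtain ⟨i, hi⟩ := hex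
    obtain ⟨c', hc'⟩ := ih (fun b hb => hN b (Multiset.mem_cons_of_mem hb))
      (Function.update c i (c i - a)) (by
        have := sum_update c i a hi
        rw [Multiset.sum_cons] at hc
        omega) (by
        intro a' h1' h2'
        have := sum_min_update c i a (a' - 1)
        have := hs a' h1' h2'
        omega)
    exact ⟨c', hc'.cons a i hi⟩

/-- the condition under which two centre blocks `s`, `t` can be completed greedily -/
def Safe2 {k l : ℕ} (s t m : ℕ) (cu : Fin k → ℕ) (cv : Fin l → ℕ) (cm : ℕ) : Prop :=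
  (1 + ∑ i, cu i ≤ s ∧ 1 + ∑ i, cv i ≤ t) ∨
  (1 + ∑ i, cv i ≤ t ∧ t ≤ cm + (1 + ∑ i, cv i) ∧ 1 + ∑ i, min (cu i) (m - 1) ≤ s) ∨
  (1 + ∑ i, cu i ≤ s ∧ s ≤ cm + (1 + ∑ i, cu i) ∧ 1 + ∑ i, min (cv i) (m - 1) ≤ t) ∨
  (1 + ∑ i, min (cu i) (m - 1) ≤ s ∧ 1 + ∑ i, min (cv i) (m - 1) ≤ t ∧ m ≤ cm + 1 ∧
    s < 1 + ∑ i, cu i ∧ t < 1 + ∑ i, cv i)

theorem exists_big {k : ℕ} (c : Fin k → ℕ) (m s : ℕ) (h1 : s < 1 + ∑ i, c i)
    (h2 : 1 + ∑ i, min (c i) (m - 1) ≤ s) : ∃ i, m ≤ c i := by
  by_contra hcon
  push Not at hcon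
  have e : ∑ i, min (c i) (m - 1) = ∑ i, c i := by
    apply Finset.sum_congr rfl
    intro i _
    have := hcon i
    omega
  omega

theorem greedy2 {k l : ℕ} (s t m : ℕ) (N : Multiset ℕ) (hN : ∀ a ∈ N, 1 ≤ a ∧ a ≤ m) :
    ∀ (cu : Fin k → ℕ) (cv : Fin l → ℕ) (cm : ℕ),
      (1 + ∑ i, cu i) + (1 + ∑ i, cv i) + cm = s + t + N.sum → Safe2 s t m cu cv cm →
      ∃ (Nu Nv Nm : Multiset ℕ) (cu' : Fin k → ℕ) (cv' : Fin l → ℕ), Nu + Nv + Nm = N ∧
        Fill cu Nu cu' ∧ Fill cv Nv cv' ∧ 1 + ∑ i, cu' i ≤ s ∧ 1 + ∑ i, cv' i ≤ t := by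
  induction N using Multiset.induction_on with
  | empty =>
    intro cu cv cm hsum hsafe
    refine ⟨0, 0, 0, cu, cv, by simp, Fill.nil _, Fill.nil _, ?_⟩
    rw [Multiset.sum_zero] at hsum
    rcases hsafe with h | h | h | h <;> omega
  | cons a N ih =>
    intro cu cv cm hsum hsafe
    obtain ⟨h1, h2⟩ := hN a (Multiset.mem_cons_self _ _)
    rw [Multiset.sum_cons] at hsum
    have hN' : ∀ b ∈ N, 1 ≤ b ∧ b ≤ m := fun b hb => hN b (Multiset.mem_cons_of_mem hb)
    by_cases hU : s < 1 + ∑ i, cu i
    · -- place at `u`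
      have hsu : 1 + ∑ i, min (cu i) (m - 1) ≤ s := by
        rcases hsafe with h | h | h | h <;> omega
      obtain ⟨i, hi⟩ := exists_big cu m s hU hsu
      have hai : a ≤ cu i := le_trans h2 hi
      have e1 := sum_update cu i a hai
      have e2 := sum_min_update cu i a (m - 1)
      obtain ⟨Nu, Nv, Nm, cu', cv', hs, hfu, hfv, hu, hv⟩ := ih hN'
        (Function.update cu i (cu i - a)) cv cm (by omega) (by
          unfold Safe2 at hsafe ⊢
          rcases hsafe with h | h | h | h
          · omega
          · right; left; omega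
          · omega
          · by_cases hc : s < 1 + ∑ j, Function.update cu i (cu i - a) j
            · right; right; right; omega
            · right; right; left; omega)
      refine ⟨a ::ₘ Nu, Nv, Nm, cu', cv', ?_, hfu.cons a i hai, hfv, hu, hv⟩
      rw [Multiset.cons_add, Multiset.cons_add, hs]
    · by_cases hV : t < 1 + ∑ i, cv i
      · have hsv : 1 + ∑ i, min (cv i) (m - 1) ≤ t := by
          rcases hsafe with h | h | h | h <;> omega
        obtain ⟨i, hi⟩ := exists_big cv m t hV hsv
        have hai : a ≤ cv i := le_trans h2 hi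
        have e1 := sum_update cv i a hai
        have e2 := sum_min_update cv i a (m - 1)
        obtain ⟨Nu, Nv, Nm, cu', cv', hs, hfu, hfv, hu, hv⟩ := ih hN'
          cu (Function.update cv i (cv i - a)) cm (by omega) (by
            unfold Safe2 at hsafe ⊢
            rcases hsafe with h | h | h | h
            · omega
            · omega
            · right; right; left; omega
            · omega)
        refine ⟨Nu, a ::ₘ Nv, Nm, cu', cv', ?_, hfu, hfv.cons a i hai, hu, hv⟩
        rw [Multiset.add_cons, Multiset.cons_add, hs]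
      · obtain ⟨Nu, Nv, Nm, cu', cv', hs, hfu, hfv, hu, hv⟩ := ih hN'
          cu cv (cm - a) (by omega) (Or.inl (by omega))
        refine ⟨Nu, Nv, a ::ₘ Nm, cu', cv', ?_, hfu, hfv, hu, hv⟩
        rw [Multiset.add_cons, hs]

/-! ### Certificates -/

/-- a decision tree over the partitions of a number, read in decreasing order of the parts -/
inductive Cert : Type
  /-- all completions of the current prefix are covered by one placement of the prefix -/
  | d (p : ℕ) : Cert
  /-- there is no completion -/
  | e : Cert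
  /-- the next part is the largest possible one, or smaller -/
  | n (t s : Cert) : Cert

/-- the run over the decision tree; `ok p m R pre` tests a leaf -/
def check (ok : ℕ → ℕ → ℕ → List ℕ → Bool) : Cert → ℕ → ℕ → List ℕ → Bool
  | .d p, m, R, pre => ok p m R pre
  | .e, m, R, _ => Nat.beq m 0 && Nat.ble 1 R
  | .n t s, m, R, pre =>
    (Nat.ble (R + 1) m || check ok t m (R - m) (m :: pre)) && (Nat.ble 1 m && check ok s (m - 1) R pre)

theorem check_sound (ok : ℕ → ℕ → ℕ → List ℕ → Bool) (Q : Multiset ℕ → Prop)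
    (hok : ∀ p m R pre, ok p m R pre = true → ∀ N : Multiset ℕ, (∀ a ∈ N, 1 ≤ a ∧ a ≤ m) →
      N.sum = R → Q ((pre : Multiset ℕ) + N)) :
    ∀ (C : Cert) (m R : ℕ) (pre : List ℕ), check ok C m R pre = true →
      ∀ N : Multiset ℕ, (∀ a ∈ N, 1 ≤ a ∧ a ≤ m) → N.sum = R → Q ((pre : Multiset ℕ) + N) := by
  intro C
  induction C with
  | d p => exact fun m R pre h => hok p m R pre h
  | e =>
    intro m R pre h N hN hs
    simp only [check, Bool.and_eq_true, Nat.ble_eq] at h
    have hm0 : m = 0 := Nat.eq_of_beq_eq_true h.1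
    exfalso
    have : N = 0 := by
      apply Multiset.eq_zero_of_forall_notMem
      intro a ha
      have := hN a ha
      omega
    rw [this, Multiset.sum_zero] at hs
    omega
  | n t s iht ihs =>
    intro m R pre h N hN hs
    simp only [check, Bool.and_eq_true, Bool.or_eq_true, Nat.ble_eq] at h
    obtain ⟨h1, h2, h3⟩ := h
    by_cases hm : m ∈ N
    · obtain ⟨N', rfl⟩ := Multiset.exists_cons_of_mem hm
      rw [Multiset.sum_cons] at hs
      rcases h1 with h1 | h1
      · omega
      · have := iht m (R - m) (m :: pre) h1 N'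
          (fun a ha => hN a (Multiset.mem_cons_of_mem ha)) (by omega)
        rw [← Multiset.cons_coe, Multiset.cons_add] at this
        rw [Multiset.add_cons]
        exact this
    · apply ihs (m - 1) R pre h3 N _ hs
      intro a ha
      have := hN a ha
      have : a ≠ m := by
        rintro rfl
        exact hm ha
      omega

/-- the parts of `pre` whose digit in `p` is `d` -/
def bin (d : ℕ) : List ℕ → ℕ → List ℕ
  | [], _ => []
  | a :: l, p => cond (Nat.beq (p % 10) d) (a :: bin d l (p / 10)) (bin d l (p / 10))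

theorem bin_sum (pre : List ℕ) : ∀ p : ℕ,
    (pre : Multiset ℕ) = (bin 0 pre p : Multiset ℕ) + (bin 1 pre p : Multiset ℕ) +
      (bin 2 pre p : Multiset ℕ) + (bin 3 pre p : Multiset ℕ) + (bin 4 pre p : Multiset ℕ) +
      (bin 5 pre p : Multiset ℕ) + (bin 6 pre p : Multiset ℕ) + (bin 7 pre p : Multiset ℕ) +
      (bin 8 pre p : Multiset ℕ) + (bin 9 pre p : Multiset ℕ) := by
  induction pre with
  | nil => intro p; simp [bin]
  | cons a l ih =>
    intro p
    have h := ih (p / 10)
    have hlt : p % 10 < 10 := Nat.mod_lt _ (by norm_num)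
    rw [← Multiset.cons_coe, h]
    generalize hq : p % 10 = q at hlt
    have e : ∀ L : List ℕ, ((a :: L : List ℕ) : Multiset ℕ) = {a} + (L : Multiset ℕ) := fun L => rfl
    rw [← Multiset.singleton_add]
    interval_cases q <;> simp only [bin, hq, Nat.beq, cond_true, cond_false, e] <;> abel

end Pool.Agent.X68.CP
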