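import Pool.Agent.X68.CP.Core

/-!
A tree with 61 vertices and two vertices of degree 4 that has a connected partition of every type.
-/

set_option autoImplicit false

namespace Pool.Agent.X68.CP.Two

open Finset

/-- the parent of a vertex.  The vertex `0` carries the paths `1`; `2, 3`; `4, …, 15`; `16, …, 27`, the
last of these ends at the vertex `28`, which carries the paths `29`; `30`; `31, …, 60`. -/
def par (v : ℕ) : ℕ :=
  if v = 1 ∨ v = 2 ∨ v = 4 ∨ v = 16 then 0 else if v = 29 ∨ v = 30 ∨ v = 31 then 28 else v - 1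

/-- the tree -/
def T : SimpleGraph (Fin 61) := SimpleGraph.fromRel (fun u v => u.val = par v.val)

instance : DecidableRel T.Adj := by
  unfold T
  infer_instance

theorem adj_par {v w : Fin 61} (h : w.val = par v.val) (hne : v ≠ w) : T.Adj v w := by
  rw [T, SimpleGraph.fromRel_adj]
  exact ⟨hne, Or.inr h⟩

theorem adj_pred {v w : Fin 61} (h : w.val + 1 = v.val)
    (h' : v.val ≠ 1 ∧ v.val ≠ 2 ∧ v.val ≠ 4 ∧ v.val ≠ 16 ∧ v.val ≠ 29 ∧ v.val ≠ 30 ∧ v.val ≠ 31) :
    T.Adj v w := by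
  apply adj_par
  · unfold par
    split_ifs <;> omega
  · rintro rfl
    omega

theorem connected : T.Connected := by
  have h := connected_of_parent (T := T) Finset.univ 0 (Finset.mem_univ _) (by
    intro v _ hv
    have hv' : v.val ≠ 0 := fun hh => hv (Fin.ext hh)
    have hlt : par v.val < v.val := by
      unfold par
      split_ifs <;> omega
    have := v.isLt
    refine ⟨⟨par v.val, by omega⟩, Finset.mem_univ _, hlt, adj_par rfl ?_⟩
    intro hh
    have := congrArg Fin.val hh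
    simp only at this
    omega)
  rw [SimpleGraph.connected_iff_exists_forall_reachable] at h ⊢
  obtain ⟨v, hv⟩ := h
  refine ⟨v.1, fun w => ?_⟩
  have := (hv ⟨w, by simp⟩).map (SimpleGraph.Embedding.induce _).toHom
  exact this

set_option maxRecDepth 1000000 in
theorem degrees : ∀ v, T.degree v ≤ 4 := by
  decide +kernel

set_option maxRecDepth 1000000 in
theorem degree0 : T.degree 0 = 4 := by
  decide +kernel

set_option maxRecDepth 1000000 in
theorem degree28 : T.degree 28 = 4 := by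
  decide +kernel

set_option maxRecDepth 1000000 in
theorem degree_sum : ∑ v, T.degree v = 120 := by
  decide +kernel

theorem isTree : T.IsTree := by
  rw [SimpleGraph.isTree_iff_connected_and_card]
  refine ⟨connected, ?_⟩
  have h1 := T.sum_degrees_eq_twice_card_edges
  rw [degree_sum] at h1
  rw [Nat.card_eq_fintype_card, Nat.card_eq_fintype_card, Fintype.card_fin,
    ← SimpleGraph.edgeFinset_card]
  omega

/-- one block contains both vertices of degree 4 -/
def Real1 (M : Multiset ℕ) : Prop :=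
  ∃ (s : ℕ) (M' : Multiset ℕ) (c' : Fin 6 → ℕ), M = s ::ₘ M' ∧
    Fill ![1, 2, 12, 1, 1, 30] M' c' ∧ 14 + ∑ i, c' i = s

/-- the vertices of degree 4 are in two blocks of sizes `s`, `t` -/
def Real2 (M : Multiset ℕ) : Prop :=
  ∃ (s t : ℕ) (Mu Mv Mm : Multiset ℕ) (cu cv : Fin 3 → ℕ), M = s ::ₘ t ::ₘ (Mu + Mv + Mm) ∧
    Fill ![1, 2, 12] Mu cu ∧ Fill ![1, 1, 30] Mv cv ∧ 1 + ∑ i, cu i ≤ s ∧ 1 + ∑ i, cv i ≤ t

/-! ### one block -/

/-- the central block containing `0` and `28` -/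
def core1 (a b c d e f : ℕ) : Finset (Fin 61) :=
  univ.filter (fun v => v.val = 0 ∨ (1 ≤ v.val ∧ v.val < 1 + a) ∨ (2 ≤ v.val ∧ v.val < 2 + b) ∨
    (4 ≤ v.val ∧ v.val < 4 + c) ∨ (16 ≤ v.val ∧ v.val < 29) ∨ (29 ≤ v.val ∧ v.val < 29 + d) ∨
    (30 ≤ v.val ∧ v.val < 30 + e) ∨ (31 ≤ v.val ∧ v.val < 31 + f))

theorem mem_core1 {a b c d e f : ℕ} {v : Fin 61} : v ∈ core1 a b c d e f ↔
    (v.val = 0 ∨ (1 ≤ v.val ∧ v.val < 1 + a) ∨ (2 ≤ v.val ∧ v.val < 2 + b) ∨
    (4 ≤ v.val ∧ v.val < 4 + c) ∨ (16 ≤ v.val ∧ v.val < 29) ∨ (29 ≤ v.val ∧ v.val < 29 + d) ∨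
    (30 ≤ v.val ∧ v.val < 30 + e) ∨ (31 ≤ v.val ∧ v.val < 31 + f)) := by
  simp [core1]

theorem core1_connected {a b c d e f : ℕ} (ha : a ≤ 1) (hb : b ≤ 2) (hc : c ≤ 12) (hd : d ≤ 1)
    (he : e ≤ 1) (hf : f ≤ 30) :
    (T.induce ((core1 a b c d e f : Finset (Fin 61)) : Set (Fin 61))).Connected := by
  apply connected_of_parent _ (0 : Fin 61)
  · rw [mem_core1]
    exact Or.inl rfl
  · intro v hv hne
    have hv0 : v.val ≠ 0 := fun hh => hne (Fin.ext hh)
    have hvlt := v.isLt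
    rw [mem_core1] at hv
    by_cases hs : v.val = 1 ∨ v.val = 2 ∨ v.val = 4 ∨ v.val = 16
    · refine ⟨0, ?_, ?_, adj_par ?_ hne⟩
      · rw [mem_core1]
        exact Or.inl rfl
      · show 0 < v.val
        omega
      · unfold par
        rw [if_pos hs]
        rfl
    · by_cases hs2 : v.val = 29 ∨ v.val = 30 ∨ v.val = 31
      · refine ⟨⟨28, by norm_num⟩, ?_, ?_, adj_par ?_ ?_⟩
        · rw [mem_core1]
          simp only
          omega
        · show 28 < v.val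
          omega
        · unfold par
          rw [if_neg hs, if_pos hs2]
        · intro hh
          have := congrArg Fin.val hh
          simp only at this
          omega
      · refine ⟨⟨v.val - 1, by omega⟩, ?_, ?_, adj_pred ?_ ?_⟩
        · rw [mem_core1]
          simp only
          omega
        · show v.val - 1 < v.val
          omega
        · show v.val - 1 + 1 = v.val
          omega
        · omega

theorem sum_six (f : Fin 6 → ℕ) : ∑ i, f i = f 0 + f 1 + f 2 + f 3 + f 4 + f 5 :=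
  Fin.sum_univ_six f

theorem part_of_real1 (M : Multiset ℕ) (hpos : ∀ a ∈ M, 1 ≤ a) (h : Real1 M) :
    Part T univ M := by
  obtain ⟨s, M', c', rfl, hF, hs⟩ := h
  have hFs : M'.sum + ∑ i, c' i = 47 := hF.sum.trans (by decide)
  obtain ⟨g, hg, hgs⟩ := hF
  have h0 : (g 0).sum + c' 0 = 1 := hgs 0
  have h1 : (g 1).sum + c' 1 = 2 := hgs 1
  have h2 : (g 2).sum + c' 2 = 12 := hgs 2
  have h3 : (g 3).sum + c' 3 = 1 := hgs 3
  have h4 : (g 4).sum + c' 4 = 1 := hgs 4
  have h5 : (g 5).sum + c' 5 = 30 := hgs 5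
  rw [Fin.sum_univ_six] at hg
  have hp : ∀ i, ∀ a ∈ g i, 1 ≤ a := by
    intro i a ha
    apply hpos
    apply Multiset.mem_cons_of_mem
    rw [← hg]
    simp only [Multiset.mem_add]
    fin_cases i
    · exact Or.inl (Or.inl (Or.inl (Or.inl (Or.inl ha))))
    · exact Or.inl (Or.inl (Or.inl (Or.inl (Or.inr ha))))
    · exact Or.inl (Or.inl (Or.inl (Or.inr ha)))
    · exact Or.inl (Or.inl (Or.inr ha))
    · exact Or.inl (Or.inr ha)
    · exact Or.inr ha
  have P0 : Part T (core1 (c' 0) (c' 1) (c' 2) (c' 3) (c' 4) (c' 5))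
      ((core1 (c' 0) (c' 1) (c' 2) (c' 3) (c' 4) (c' 5)).card ::ₘ 0) := by
    have := part_extend (part_empty T) (core1_connected (a := c' 0) (b := c' 1) (c := c' 2)
      (d := c' 3) (e := c' 4) (f := c' 5) (by omega) (by omega) (by omega) (by omega) (by omega)
      (by omega)) (Finset.disjoint_empty_left _)
    rwa [Finset.empty_union] at this
  have P1 := part_interval P0 (1 + c' 0) (g 0) (hp 0) (by omega) (by
    intro v w hw hv hlt
    apply adj_pred hv
    omega) (by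
    rw [Finset.disjoint_left]
    intro v hv hv'
    simp only [Finset.mem_union, mem_core1, mem_Iv] at hv hv'
    omega)
  have P2 := part_interval P1 (2 + c' 1) (g 1) (hp 1) (by omega) (by
    intro v w hw hv hlt
    apply adj_pred hv
    omega) (by
    rw [Finset.disjoint_left]
    intro v hv hv'
    simp only [Finset.mem_union, mem_core1, mem_Iv] at hv hv'
    omega)
  have P3 := part_interval P2 (4 + c' 2) (g 2) (hp 2) (by omega) (by
    intro v w hw hv hlt
    apply adj_pred hv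
    omega) (by
    rw [Finset.disjoint_left]
    intro v hv hv'
    simp only [Finset.mem_union, mem_core1, mem_Iv] at hv hv'
    omega)
  have P4 := part_interval P3 (29 + c' 3) (g 3) (hp 3) (by omega) (by
    intro v w hw hv hlt
    apply adj_pred hv
    omega) (by
    rw [Finset.disjoint_left]
    intro v hv hv'
    simp only [Finset.mem_union, mem_core1, mem_Iv] at hv hv'
    omega)
  have P5 := part_interval P4 (30 + c' 4) (g 4) (hp 4) (by omega) (by
    intro v w hw hv hlt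
    apply adj_pred hv
    omega) (by
    rw [Finset.disjoint_left]
    intro v hv hv'
    simp only [Finset.mem_union, mem_core1, mem_Iv] at hv hv'
    omega)
  have P6 := part_interval P5 (31 + c' 5) (g 5) (hp 5) (by omega) (by
    intro v w hw hv hlt
    apply adj_pred hv
    omega) (by
    rw [Finset.disjoint_left]
    intro v hv hv'
    simp only [Finset.mem_union, mem_core1, mem_Iv] at hv hv'
    omega)
  have hu : core1 (c' 0) (c' 1) (c' 2) (c' 3) (c' 4) (c' 5) ∪ Iv 61 (1 + c' 0) (g 0).sum ∪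
      Iv 61 (2 + c' 1) (g 1).sum ∪ Iv 61 (4 + c' 2) (g 2).sum ∪ Iv 61 (29 + c' 3) (g 3).sum ∪
      Iv 61 (30 + c' 4) (g 4).sum ∪ Iv 61 (31 + c' 5) (g 5).sum = univ := by
    ext v
    have := v.isLt
    simp only [Finset.mem_union, mem_core1, mem_Iv, Finset.mem_univ, iff_true]
    omega
  rw [hu] at P6
  generalize hX : (core1 (c' 0) (c' 1) (c' 2) (c' 3) (c' 4) (c' 5)).card = X at P6
  have hM : g 5 + (g 4 + (g 3 + (g 2 + (g 1 + (g 0 + X ::ₘ 0))))) = X ::ₘ M' := by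
    rw [← hg, ← Multiset.singleton_add, ← Multiset.singleton_add]
    abel
  rw [hM] at P6
  have hcard : X + M'.sum = 61 := by
    obtain ⟨P, _, hP⟩ := P6
    have h5 := P.sum_card_parts
    have h6 : (P.parts.val.map Finset.card).sum = 61 := by
      have h7 : ∑ i ∈ P.parts, i.card = (P.parts.val.map Finset.card).sum := rfl
      rw [← h7, h5, Finset.card_univ, Fintype.card_fin]
    rw [hP, Multiset.sum_cons] at h6
    exact h6
  have hs' : X = s := by omega
  rw [hs'] at P6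
  exact P6

/-! ### two blocks -/

/-- the block of the vertex `0` -/
def coreU (a b c x : ℕ) : Finset (Fin 61) :=
  Iv 61 0 1 ∪ Iv 61 1 a ∪ Iv 61 2 b ∪ Iv 61 4 c ∪ Iv 61 16 x

/-- the block of the vertex `28` -/
def coreV (d e f y : ℕ) : Finset (Fin 61) :=
  Iv 61 (28 - y) (y + 1) ∪ Iv 61 29 d ∪ Iv 61 30 e ∪ Iv 61 31 f

theorem mem_coreU {a b c x : ℕ} {v : Fin 61} : v ∈ coreU a b c x ↔
    (v.val = 0 ∨ (1 ≤ v.val ∧ v.val < 1 + a) ∨ (2 ≤ v.val ∧ v.val < 2 + b) ∨
    (4 ≤ v.val ∧ v.val < 4 + c) ∨ (16 ≤ v.val ∧ v.val < 16 + x)) := by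
  simp only [coreU, Finset.mem_union, mem_Iv]
  omega

theorem mem_coreV {d e f y : ℕ} (hy : y ≤ 12) {v : Fin 61} : v ∈ coreV d e f y ↔
    ((28 ≤ v.val + y ∧ v.val < 29) ∨ (29 ≤ v.val ∧ v.val < 29 + d) ∨
    (30 ≤ v.val ∧ v.val < 30 + e) ∨ (31 ≤ v.val ∧ v.val < 31 + f)) := by
  simp only [coreV, Finset.mem_union, mem_Iv]
  omega

theorem card_coreU {a b c x : ℕ} (ha : a ≤ 1) (hb : b ≤ 2) (hc : c ≤ 12) (hx : x ≤ 12) :
    (coreU a b c x).card = 1 + a + b + c + x := by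
  unfold coreU
  rw [Finset.card_union_of_disjoint, Finset.card_union_of_disjoint, Finset.card_union_of_disjoint,
    Finset.card_union_of_disjoint, card_Iv (by norm_num), card_Iv (by omega), card_Iv (by omega),
    card_Iv (by omega), card_Iv (by omega)]
  all_goals
    rw [Finset.disjoint_left]
    intro v hv hv'
    simp only [Finset.mem_union, mem_Iv] at hv hv'
    omega

theorem coreU_connected {a b c x : ℕ} (ha : a ≤ 1) (hb : b ≤ 2) (hc : c ≤ 12) (hx : x ≤ 12) :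
    (T.induce ((coreU a b c x : Finset (Fin 61)) : Set (Fin 61))).Connected := by
  apply connected_of_parent _ (0 : Fin 61)
  · rw [mem_coreU]
    exact Or.inl rfl
  · intro v hv hne
    have hv0 : v.val ≠ 0 := fun hh => hne (Fin.ext hh)
    have hvlt := v.isLt
    rw [mem_coreU] at hv
    by_cases hs : v.val = 1 ∨ v.val = 2 ∨ v.val = 4 ∨ v.val = 16
    · refine ⟨0, ?_, ?_, adj_par ?_ hne⟩
      · rw [mem_coreU]
        exact Or.inl rfl
      · show 0 < v.val
        omega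
      · unfold par
        rw [if_pos hs]
        rfl
    · refine ⟨⟨v.val - 1, by omega⟩, ?_, ?_, adj_pred ?_ ?_⟩
      · rw [mem_coreU]
        simp only
        omega
      · show v.val - 1 < v.val
        omega
      · show v.val - 1 + 1 = v.val
        omega
      · omega

theorem coreV_connected {d e f y : ℕ} (hd : d ≤ 1) (he : e ≤ 1) (hf : f ≤ 30) (hy : y ≤ 12) :
    (T.induce ((coreV d e f y : Finset (Fin 61)) : Set (Fin 61))).Connected := by
  apply connected_of_parent _ (⟨28 - y, by omega⟩ : Fin 61)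
  · rw [mem_coreV hy]
    left
    simp only
    omega
  · intro v hv hne
    have hv0 : v.val ≠ 28 - y := fun hh => hne (Fin.ext hh)
    have hvlt := v.isLt
    rw [mem_coreV hy] at hv
    by_cases hs : v.val = 29 ∨ v.val = 30 ∨ v.val = 31
    · refine ⟨⟨28, by norm_num⟩, ?_, ?_, adj_par ?_ ?_⟩
      · rw [mem_coreV hy]
        simp only
        omega
      · show 28 < v.val
        omega
      · unfold par
        rw [if_neg (by omega), if_pos hs]
      · intro hh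
        have := congrArg Fin.val hh
        simp only at this
        omega
    · refine ⟨⟨v.val - 1, by omega⟩, ?_, ?_, adj_pred ?_ ?_⟩
      · rw [mem_coreV hy]
        simp only
        omega
      · show v.val - 1 < v.val
        omega
      · show v.val - 1 + 1 = v.val
        omega
      · omega

theorem part_of_real2 (M : Multiset ℕ) (hpos : ∀ a ∈ M, 1 ≤ a) (hM61 : M.sum = 61)
    (h : Real2 M) : Part T univ M := by
  obtain ⟨s, t, Mu, Mv, Mm, cu, cv, rfl, hFu, hFv, hs, ht⟩ := h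
  have hFus : Mu.sum + ∑ i, cu i = 15 := hFu.sum.trans (by decide)
  have hFvs : Mv.sum + ∑ i, cv i = 32 := hFv.sum.trans (by decide)
  obtain ⟨g, hg, hgs⟩ := hFu
  obtain ⟨f, hf, hfs⟩ := hFv
  have h0 : (g 0).sum + cu 0 = 1 := hgs 0
  have h1 : (g 1).sum + cu 1 = 2 := hgs 1
  have h2 : (g 2).sum + cu 2 = 12 := hgs 2
  have h3 : (f 0).sum + cv 0 = 1 := hfs 0
  have h4 : (f 1).sum + cv 1 = 1 := hfs 1
  have h5 : (f 2).sum + cv 2 = 30 := hfs 2
  rw [Fin.sum_univ_three] at hg hf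
  rw [Fin.sum_univ_three] at hs ht hFus hFvs
  rw [Multiset.sum_cons, Multiset.sum_cons, Multiset.sum_add, Multiset.sum_add] at hM61
  obtain ⟨x, hx⟩ : ∃ x, s = 1 + (cu 0 + cu 1 + cu 2) + x := ⟨_, (Nat.add_sub_of_le hs).symm⟩
  obtain ⟨y, hy⟩ : ∃ y, t = 1 + (cv 0 + cv 1 + cv 2) + y := ⟨_, (Nat.add_sub_of_le ht).symm⟩
  have hxy : x + Mm.sum + y = 12 := by omega
  have hpu : ∀ i, ∀ a ∈ g i, 1 ≤ a := by
    intro i a ha
    apply hpos
    apply Multiset.mem_cons_of_mem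
    apply Multiset.mem_cons_of_mem
    rw [← hg, ← hf]
    simp only [Multiset.mem_add]
    left; left
    fin_cases i
    · exact Or.inl (Or.inl ha)
    · exact Or.inl (Or.inr ha)
    · exact Or.inr ha
  have hpv : ∀ i, ∀ a ∈ f i, 1 ≤ a := by
    intro i a ha
    apply hpos
    apply Multiset.mem_cons_of_mem
    apply Multiset.mem_cons_of_mem
    rw [← hg, ← hf]
    simp only [Multiset.mem_add]
    left; right
    fin_cases i
    · exact Or.inl (Or.inl ha)
    · exact Or.inl (Or.inr ha)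
    · exact Or.inr ha
  have hpm : ∀ a ∈ Mm, 1 ≤ a := by
    intro a ha
    apply hpos
    apply Multiset.mem_cons_of_mem
    apply Multiset.mem_cons_of_mem
    rw [Multiset.mem_add]
    exact Or.inr ha
  have hy12 : y ≤ 12 := by omega
  have P0 : Part T (coreU (cu 0) (cu 1) (cu 2) x) (s ::ₘ 0) := by
    have := part_extend (part_empty T) (coreU_connected (a := cu 0) (b := cu 1) (c := cu 2)
      (x := x) (by omega) (by omega) (by omega) (by omega)) (Finset.disjoint_empty_left _)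
    rw [Finset.empty_union, card_coreU (by omega) (by omega) (by omega) (by omega)] at this
    have e : s = 1 + cu 0 + cu 1 + cu 2 + x := by omega
    rw [e]
    exact this
  have P1 : Part T (coreU (cu 0) (cu 1) (cu 2) x ∪ coreV (cv 0) (cv 1) (cv 2) y)
      ((coreV (cv 0) (cv 1) (cv 2) y).card ::ₘ s ::ₘ 0) :=
    part_extend P0 (coreV_connected (by omega) (by omega) (by omega) hy12) (by
      rw [Finset.disjoint_left]
      intro v hv hv'
      rw [mem_coreU] at hv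
      rw [mem_coreV hy12] at hv'
      omega)
  have P2 := part_interval P1 (1 + cu 0) (g 0) (hpu 0) (by omega) (by
    intro v w hw hv hlt
    apply adj_pred hv
    omega) (by
    rw [Finset.disjoint_left]
    intro v hv hv'
    simp only [Finset.mem_union, mem_coreU, mem_coreV hy12, mem_Iv] at hv hv'
    omega)
  have P3 := part_interval P2 (2 + cu 1) (g 1) (hpu 1) (by omega) (by
    intro v w hw hv hlt
    apply adj_pred hv
    omega) (by
    rw [Finset.disjoint_left]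
    intro v hv hv'
    simp only [Finset.mem_union, mem_coreU, mem_coreV hy12, mem_Iv] at hv hv'
    omega)
  have P4 := part_interval P3 (4 + cu 2) (g 2) (hpu 2) (by omega) (by
    intro v w hw hv hlt
    apply adj_pred hv
    omega) (by
    rw [Finset.disjoint_left]
    intro v hv hv'
    simp only [Finset.mem_union, mem_coreU, mem_coreV hy12, mem_Iv] at hv hv'
    omega)
  have P5 := part_interval P4 (29 + cv 0) (f 0) (hpv 0) (by omega) (by
    intro v w hw hv hlt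
    apply adj_pred hv
    omega) (by
    rw [Finset.disjoint_left]
    intro v hv hv'
    simp only [Finset.mem_union, mem_coreU, mem_coreV hy12, mem_Iv] at hv hv'
    omega)
  have P6 := part_interval P5 (30 + cv 1) (f 1) (hpv 1) (by omega) (by
    intro v w hw hv hlt
    apply adj_pred hv
    omega) (by
    rw [Finset.disjoint_left]
    intro v hv hv'
    simp only [Finset.mem_union, mem_coreU, mem_coreV hy12, mem_Iv] at hv hv'
    omega)
  have P7 := part_interval P6 (31 + cv 2) (f 2) (hpv 2) (by omega) (by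
    intro v w hw hv hlt
    apply adj_pred hv
    omega) (by
    rw [Finset.disjoint_left]
    intro v hv hv'
    simp only [Finset.mem_union, mem_coreU, mem_coreV hy12, mem_Iv] at hv hv'
    omega)
  have P8 := part_interval P7 (16 + x) Mm hpm (by omega) (by
    intro v w hw hv hlt
    apply adj_pred hv
    omega) (by
    rw [Finset.disjoint_left]
    intro v hv hv'
    simp only [Finset.mem_union, mem_coreU, mem_coreV hy12, mem_Iv] at hv hv'
    omega)
  have hu : coreU (cu 0) (cu 1) (cu 2) x ∪ coreV (cv 0) (cv 1) (cv 2) y ∪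
      Iv 61 (1 + cu 0) (g 0).sum ∪ Iv 61 (2 + cu 1) (g 1).sum ∪ Iv 61 (4 + cu 2) (g 2).sum ∪
      Iv 61 (29 + cv 0) (f 0).sum ∪ Iv 61 (30 + cv 1) (f 1).sum ∪ Iv 61 (31 + cv 2) (f 2).sum ∪
      Iv 61 (16 + x) Mm.sum = univ := by
    ext v
    have := v.isLt
    simp only [Finset.mem_union, mem_coreU, mem_coreV hy12, mem_Iv, Finset.mem_univ, iff_true]
    omega
  rw [hu] at P8
  generalize hX : (coreV (cv 0) (cv 1) (cv 2) y).card = X at P8
  have hM : Mm + (f 2 + (f 1 + (f 0 + (g 2 + (g 1 + (g 0 + X ::ₘ s ::ₘ 0)))))) =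
      s ::ₘ X ::ₘ (Mu + Mv + Mm) := by
    rw [← hg, ← hf, ← Multiset.singleton_add, ← Multiset.singleton_add,
      ← Multiset.singleton_add, ← Multiset.singleton_add]
    abel
  rw [hM] at P8
  have hcard : s + (X + (Mu.sum + Mv.sum + Mm.sum)) = 61 := by
    obtain ⟨P, _, hP⟩ := P8
    have h5 := P.sum_card_parts
    have h6 : (P.parts.val.map Finset.card).sum = 61 := by
      have h7 : ∑ i ∈ P.parts, i.card = (P.parts.val.map Finset.card).sum := rfl
      rw [← h7, h5, Finset.card_univ, Fintype.card_fin]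
    rw [hP, Multiset.sum_cons, Multiset.sum_cons, Multiset.sum_add, Multiset.sum_add] at h6
    exact h6
  have hX' : X = t := by omega
  rw [hX'] at P8
  exact P8

/-! ### the test at the leaves of the decision tree -/

/-- the greedy condition for one central block, for all part sizes up to the last argument -/
def safe (c0 c1 c2 c3 c4 c5 s : ℕ) : ℕ → Bool
  | 0 => true
  | a + 1 => Nat.ble (min c0 a + min c1 a + min c2 a + min c3 a + min c4 a + min c5 a + 15)
      (a + 1 + s) && safe c0 c1 c2 c3 c4 c5 s a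

theorem safe_sound {c0 c1 c2 c3 c4 c5 s : ℕ} : ∀ {m : ℕ}, safe c0 c1 c2 c3 c4 c5 s m = true →
    ∀ a, 1 ≤ a → a ≤ m → min c0 (a - 1) + min c1 (a - 1) + min c2 (a - 1) + min c3 (a - 1) +
      min c4 (a - 1) + min c5 (a - 1) + 15 ≤ a + s := by
  intro m
  induction m with
  | zero => intro _ a h1 h2; omega
  | succ m ih =>
    intro h a h1 h2
    simp only [safe, Bool.and_eq_true, Nat.ble_eq] at h
    by_cases hc : a = m + 1
    · subst hc
      exact h.1
    · exact ih h.2 a h1 (by omega)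

/-- test for one central block -/
def ok1 (p m R s : ℕ) (pre : List ℕ) : Bool :=
  (bin 3 pre p).isEmpty && (bin 7 pre p).isEmpty && (bin 8 pre p).isEmpty &&
  Nat.ble (bin 0 pre p).sum 1 && Nat.ble (bin 1 pre p).sum 2 && Nat.ble (bin 2 pre p).sum 12 &&
  Nat.ble (bin 4 pre p).sum 1 && Nat.ble (bin 5 pre p).sum 1 && Nat.ble (bin 6 pre p).sum 30 &&
  (Nat.beq R 0 || safe (1 - (bin 0 pre p).sum) (2 - (bin 1 pre p).sum) (12 - (bin 2 pre p).sum)
    (1 - (bin 4 pre p).sum) (1 - (bin 5 pre p).sum) (30 - (bin 6 pre p).sum) s m)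

/-- greedy condition for two central blocks -/
def safe2 (a b c d e f x s t m : ℕ) : Bool :=
  (Nat.ble (1 + (a + b + c)) s && Nat.ble (1 + (d + e + f)) t) ||
  ((Nat.ble (1 + (d + e + f)) t && Nat.ble t (x + (1 + (d + e + f)))) &&
    Nat.ble (1 + (min a (m - 1) + min b (m - 1) + min c (m - 1))) s) ||
  ((Nat.ble (1 + (a + b + c)) s && Nat.ble s (x + (1 + (a + b + c)))) &&
    Nat.ble (1 + (min d (m - 1) + min e (m - 1) + min f (m - 1))) t) ||
  ((Nat.ble (1 + (min a (m - 1) + min b (m - 1) + min c (m - 1))) s &&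
    Nat.ble (1 + (min d (m - 1) + min e (m - 1) + min f (m - 1))) t) &&
    (Nat.ble m (x + 1) && (Nat.ble (s + 1) (1 + (a + b + c)) && Nat.ble (t + 1) (1 + (d + e + f)))))

/-- test for two central blocks -/
def ok2 (p m s t : ℕ) (pre : List ℕ) : Bool :=
  (bin 9 pre p).isEmpty &&
  Nat.ble (bin 0 pre p).sum 1 && Nat.ble (bin 1 pre p).sum 2 && Nat.ble (bin 2 pre p).sum 12 &&
  Nat.ble (bin 3 pre p).sum 12 &&
  Nat.ble (bin 4 pre p).sum 1 && Nat.ble (bin 5 pre p).sum 1 && Nat.ble (bin 6 pre p).sum 30 &&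
  safe2 (1 - (bin 0 pre p).sum) (2 - (bin 1 pre p).sum) (12 - (bin 2 pre p).sum)
    (1 - (bin 4 pre p).sum) (1 - (bin 5 pre p).sum) (30 - (bin 6 pre p).sum)
    (12 - (bin 3 pre p).sum) s t m

/-- the test at a leaf -/
def ok (p m R : ℕ) (pre : List ℕ) : Bool :=
  match bin 9 pre p with
  | [s] => ok1 p m R s pre
  | _ => match bin 7 pre p, bin 8 pre p with
    | [s], [t] => ok2 p m s t pre
    | _, _ => false

theorem ok1_sound (p m R s : ℕ) (pre : List ℕ) (hs : bin 9 pre p = [s])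
    (h : ok1 p m R s pre = true) (N : Multiset ℕ)
    (hN : ∀ a ∈ N, 1 ≤ a ∧ a ≤ m) (hR : N.sum = R)
    (hsum : ((pre : Multiset ℕ) + N).sum = 61) : Real1 ((pre : Multiset ℕ) + N) := by
  unfold ok1 at h
  simp only [Bool.and_eq_true, Nat.ble_eq, List.isEmpty_iff, Bool.or_eq_true] at h
  obtain ⟨⟨⟨⟨⟨⟨⟨⟨⟨h3, h7⟩, h8⟩, h0⟩, h1⟩, h2⟩, h4⟩, h5⟩, h6⟩, hsafe⟩ := h
  have hb := bin_sum pre p
  rw [h3, h7, h8, hs] at hb
  generalize bin 0 pre p = B0 at *
  generalize bin 1 pre p = B1 at *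
  generalize bin 2 pre p = B2 at *
  generalize bin 4 pre p = B4 at *
  generalize bin 5 pre p = B5 at *
  generalize bin 6 pre p = B6 at *
  have hpre : (pre : Multiset ℕ) = s ::ₘ ((B0 : Multiset ℕ) + B1 + B2 + B4 + B5 + B6) := by
    rw [hb, ← Multiset.singleton_add]
    simp only [Multiset.coe_nil, add_zero]
    rw [Multiset.coe_singleton]
    abel
  have hpsum : (pre : Multiset ℕ).sum =
      s + (B0.sum + B1.sum + B2.sum + B4.sum + B5.sum + B6.sum) := by
    rw [hpre]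
    simp only [Multiset.sum_cons, Multiset.sum_add, Multiset.sum_coe]
  rw [Multiset.sum_add, hpsum, hR] at hsum
  have F1 : Fill (k := 6) ![1, 2, 12, 1, 1, 30] ((B0 : Multiset ℕ) + B1 + B2 + B4 + B5 + B6)
      ![1 - B0.sum, 2 - B1.sum, 12 - B2.sum, 1 - B4.sum, 1 - B5.sum, 30 - B6.sum] := by
    refine ⟨![(B0 : Multiset ℕ), B1, B2, B4, B5, B6], ?_, ?_⟩
    · rw [Fin.sum_univ_six]
      rfl
    · intro i
      fin_cases i
      · show (B0 : Multiset ℕ).sum + (1 - B0.sum) = 1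
        rw [Multiset.sum_coe]
        omega
      · show (B1 : Multiset ℕ).sum + (2 - B1.sum) = 2
        rw [Multiset.sum_coe]
        omega
      · show (B2 : Multiset ℕ).sum + (12 - B2.sum) = 12
        rw [Multiset.sum_coe]
        omega
      · show (B4 : Multiset ℕ).sum + (1 - B4.sum) = 1
        rw [Multiset.sum_coe]
        omega
      · show (B5 : Multiset ℕ).sum + (1 - B5.sum) = 1
        rw [Multiset.sum_coe]
        omega
      · show (B6 : Multiset ℕ).sum + (30 - B6.sum) = 30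
        rw [Multiset.sum_coe]
        omega
  have F2 : ∃ c' : Fin 6 → ℕ, Fill (k := 6)
      ![1 - B0.sum, 2 - B1.sum, 12 - B2.sum, 1 - B4.sum, 1 - B5.sum, 30 - B6.sum] N c' := by
    rcases hsafe with hz | hsafe
    · have hR0 : R = 0 := Nat.eq_of_beq_eq_true hz
      have : N = 0 := by
        apply Multiset.eq_zero_of_forall_notMem
        intro a ha
        have h1' := (hN a ha).1
        have h2' := Multiset.le_sum_of_mem ha
        omega
      rw [this]
      exact ⟨_, Fill.nil _⟩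
    · apply greedy1 14 s m N hN
      · rw [Fin.sum_univ_six]
        show 14 + (1 - B0.sum + (2 - B1.sum) + (12 - B2.sum) + (1 - B4.sum) + (1 - B5.sum) +
          (30 - B6.sum)) = s + N.sum
        omega
      · intro a ha1 ha2
        have := safe_sound hsafe a ha1 ha2
        rw [Fin.sum_univ_six]
        exact this
  obtain ⟨c', hc'⟩ := F2
  refine ⟨s, (B0 : Multiset ℕ) + B1 + B2 + B4 + B5 + B6 + N, c', ?_, F1.trans hc', ?_⟩
  · rw [hpre, Multiset.cons_add]
  · have hFs' : N.sum + ∑ i, c' i = 1 - B0.sum + (2 - B1.sum) + (12 - B2.sum) + (1 - B4.sum) +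
        (1 - B5.sum) + (30 - B6.sum) :=
      hc'.sum.trans (Fin.sum_univ_six _)
    omega

theorem ok2_sound (p m R s t : ℕ) (pre : List ℕ) (hs : bin 7 pre p = [s]) (ht : bin 8 pre p = [t])
    (h : ok2 p m s t pre = true) (N : Multiset ℕ)
    (hN : ∀ a ∈ N, 1 ≤ a ∧ a ≤ m) (hR : N.sum = R)
    (hsum : ((pre : Multiset ℕ) + N).sum = 61) : Real2 ((pre : Multiset ℕ) + N) := by
  unfold ok2 safe2 at h
  simp only [Bool.and_eq_true, Nat.ble_eq, List.isEmpty_iff, Bool.or_eq_true] at h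
  obtain ⟨⟨⟨⟨⟨⟨⟨⟨h9, h0⟩, h1⟩, h2⟩, h3⟩, h4⟩, h5⟩, h6⟩, hsafe⟩ := h
  have hb := bin_sum pre p
  rw [h9, hs, ht] at hb
  generalize bin 0 pre p = B0 at *
  generalize bin 1 pre p = B1 at *
  generalize bin 2 pre p = B2 at *
  generalize bin 3 pre p = B3 at *
  generalize bin 4 pre p = B4 at *
  generalize bin 5 pre p = B5 at *
  generalize bin 6 pre p = B6 at *
  have hpre : (pre : Multiset ℕ) =
      s ::ₘ t ::ₘ ((B0 + B1 + B2 : Multiset ℕ) + (B4 + B5 + B6 : Multiset ℕ) + B3) := by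
    rw [hb, ← Multiset.singleton_add, ← Multiset.singleton_add]
    simp only [Multiset.coe_nil, add_zero]
    rw [Multiset.coe_singleton, Multiset.coe_singleton]
    abel
  have hpsum : (pre : Multiset ℕ).sum =
      s + (t + ((B0.sum + B1.sum + B2.sum) + (B4.sum + B5.sum + B6.sum) + B3.sum)) := by
    rw [hpre]
    simp only [Multiset.sum_cons, Multiset.sum_add, Multiset.sum_coe]
  rw [Multiset.sum_add, hpsum, hR] at hsum
  have F1 : Fill (k := 3) ![1, 2, 12] ((B0 : Multiset ℕ) + B1 + B2)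
      ![1 - B0.sum, 2 - B1.sum, 12 - B2.sum] := by
    refine ⟨![(B0 : Multiset ℕ), B1, B2], ?_, ?_⟩
    · rw [Fin.sum_univ_three]
      rfl
    · intro i
      fin_cases i
      · show (B0 : Multiset ℕ).sum + (1 - B0.sum) = 1
        rw [Multiset.sum_coe]
        omega
      · show (B1 : Multiset ℕ).sum + (2 - B1.sum) = 2
        rw [Multiset.sum_coe]
        omega
      · show (B2 : Multiset ℕ).sum + (12 - B2.sum) = 12
        rw [Multiset.sum_coe]
        omega
  have F2 : Fill (k := 3) ![1, 1, 30] ((B4 : Multiset ℕ) + B5 + B6)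
      ![1 - B4.sum, 1 - B5.sum, 30 - B6.sum] := by
    refine ⟨![(B4 : Multiset ℕ), B5, B6], ?_, ?_⟩
    · rw [Fin.sum_univ_three]
      rfl
    · intro i
      fin_cases i
      · show (B4 : Multiset ℕ).sum + (1 - B4.sum) = 1
        rw [Multiset.sum_coe]
        omega
      · show (B5 : Multiset ℕ).sum + (1 - B5.sum) = 1
        rw [Multiset.sum_coe]
        omega
      · show (B6 : Multiset ℕ).sum + (30 - B6.sum) = 30
        rw [Multiset.sum_coe]
        omega
  have e1 : ∑ i, (![1 - B0.sum, 2 - B1.sum, 12 - B2.sum] : Fin 3 → ℕ) i =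
      (1 - B0.sum) + (2 - B1.sum) + (12 - B2.sum) := Fin.sum_univ_three _
  have e2 : ∑ i, (![1 - B4.sum, 1 - B5.sum, 30 - B6.sum] : Fin 3 → ℕ) i =
      (1 - B4.sum) + (1 - B5.sum) + (30 - B6.sum) := Fin.sum_univ_three _
  have e3 : ∑ i, min ((![1 - B0.sum, 2 - B1.sum, 12 - B2.sum] : Fin 3 → ℕ) i) (m - 1) =
      min (1 - B0.sum) (m - 1) + min (2 - B1.sum) (m - 1) + min (12 - B2.sum) (m - 1) :=
    Fin.sum_univ_three _
  have e4 : ∑ i, min ((![1 - B4.sum, 1 - B5.sum, 30 - B6.sum] : Fin 3 → ℕ) i) (m - 1) =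
      min (1 - B4.sum) (m - 1) + min (1 - B5.sum) (m - 1) + min (30 - B6.sum) (m - 1) :=
    Fin.sum_univ_three _
  obtain ⟨Nu, Nv, Nm, cu, cv, hNs, hFu, hFv, hu, hv⟩ := greedy2 s t m N hN
    ![1 - B0.sum, 2 - B1.sum, 12 - B2.sum] ![1 - B4.sum, 1 - B5.sum, 30 - B6.sum] (12 - B3.sum)
    (by rw [e1, e2]; omega) (by
      unfold Safe2
      rw [e1, e2, e3, e4]
      rcases hsafe with ((h | h) | h) | h
      · exact Or.inl h
      · exact Or.inr (Or.inl ⟨h.1.1, h.1.2, h.2⟩)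
      · exact Or.inr (Or.inr (Or.inl ⟨h.1.1, h.1.2, h.2⟩))
      · exact Or.inr (Or.inr (Or.inr ⟨h.1.1, h.1.2, h.2.1, h.2.2.1, h.2.2.2⟩)))
  refine ⟨s, t, (B0 : Multiset ℕ) + B1 + B2 + Nu, (B4 : Multiset ℕ) + B5 + B6 + Nv,
    (B3 : Multiset ℕ) + Nm, cu, cv, ?_, F1.trans hFu, F2.trans hFv, hu, hv⟩
  rw [hpre, ← hNs, ← Multiset.singleton_add, ← Multiset.singleton_add, ← Multiset.singleton_add,
    ← Multiset.singleton_add]
  abel

theorem ok_sound (p m R : ℕ) (pre : List ℕ) (h : ok p m R pre = true) (N : Multiset ℕ)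
    (hN : ∀ a ∈ N, 1 ≤ a ∧ a ≤ m) (hR : N.sum = R)
    (hsum : ((pre : Multiset ℕ) + N).sum = 61) :
    Real1 ((pre : Multiset ℕ) + N) ∨ Real2 ((pre : Multiset ℕ) + N) := by
  unfold ok at h
  split at h
  · rename_i s hs
    exact Or.inl (ok1_sound p m R s pre hs h N hN hR hsum)
  · split at h
    · rename_i s t hs ht
      exact Or.inr (ok2_sound p m R s t pre hs ht h N hN hR hsum)
    · exact absurd h (by simp)

/-! ### the decision tree: `tN` is the part for partitions with largest part `N` -/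

/-- largest part 61 -/
def t61 : Cert :=
  (.d 9)

/-- largest part 60 -/
def t60 : Cert :=
  (.d 9)

/-- largest part 59 -/
def t59 : Cert :=
  (.d 9)

/-- largest part 58 -/
def t58 : Cert :=
  (.d 9)

/-- largest part 57 -/
def t57 : Cert :=
  (.d 9)

/-- largest part 56 -/
def t56 : Cert :=
  (.d 9)

/-- largest part 55 -/
def t55 : Cert :=
  (.d 9)

/-- largest part 54 -/
def t54 : Cert :=
  (.d 9)

/-- largest part 53 -/
def t53 : Cert :=
  (.d 9)

/-- largest part 52 -/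
def t52 : Cert :=
  (.d 9)

/-- largest part 51 -/
def t51 : Cert :=
  (.d 9)

/-- largest part 50 -/
def t50 : Cert :=
  (.d 9)

/-- largest part 49 -/
def t49 : Cert :=
  (.d 9)

/-- largest part 48 -/
def t48 : Cert :=
  (.d 9)

/-- largest part 47 -/
def t47 : Cert :=
  (.d 9)

/-- largest part 46 -/
def t46 : Cert :=
  (.d 9)

/-- largest part 45 -/
def t45 : Cert :=
  (.d 9)

/-- largest part 44 -/
def t44 : Cert :=
  (.d 9)

/-- largest part 43 -/
def t43 : Cert :=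
  (.d 9)

/-- largest part 42 -/
def t42 : Cert :=
  (.d 9)

/-- largest part 41 -/
def t41 : Cert :=
  (.d 9)

/-- largest part 40 -/
def t40 : Cert :=
  (.d 9)

/-- largest part 39 -/
def t39 : Cert :=
  (.d 9)

/-- largest part 38 -/
def t38 : Cert :=
  (.d 9)

/-- largest part 37 -/
def t37 : Cert :=
  (.d 9)

/-- largest part 36 -/
def t36 : Cert :=
  (.d 9)

/-- largest part 35 -/
def t35 : Cert :=
  (.d 9)

/-- largest part 34 -/
def t34 : Cert :=
  (.d 9)

/-- largest part 33 -/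
def t33 : Cert :=
  (.d 9)

/-- largest part 32 -/
def t32 : Cert :=
  (.d 9)

/-- largest part 31 -/
def t31 : Cert :=
  (.d 9)

/-- largest part 30 -/
def t30 : Cert :=
  (.n (.d 96) (.n (.d 69) (.n (.d 69) (.n (.d 69) (.n (.d 69) (.n (.d 69) (.n (.d 69) (.n (.d 69) (.n (.d 69) (.n (.d 69) (.n (.d 69) (.n (.d 69) (.n (.d 87) (.n (.d 87) (.n (.d 87) (.n (.n (.d 966) (.n (.d 966) (.n (.d 966) (.d 87)))) (.n (.n (.d 966) (.n (.d 966) (.d 96))) (.n (.n (.d 966) (.d 96)) (.d 9)))))))))))))))))))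

/-- largest part 29 -/
def t29 : Cert :=
  (.n (.d 96) (.n (.d 69) (.n (.d 69) (.n (.d 69) (.n (.d 69) (.n (.d 69) (.n (.d 69) (.n (.d 69) (.n (.d 69) (.n (.d 69) (.n (.d 87) (.n (.d 87) (.n (.d 87) (.n (.d 87) (.n (.n (.d 966) (.n (.d 966) (.n (.d 966) (.d 87)))) (.n (.n (.d 966) (.n (.d 966) (.n (.d 962) (.d 87)))) (.n (.n (.d 966) (.n (.d 962) (.d 96))) (.n (.d 92) (.d 9)))))))))))))))))))

/-- largest part 28 -/
def t28 : Cert :=
  (.n (.d 96) (.n (.d 69) (.n (.d 69) (.n (.d 87) (.n (.d 87) (.n (.d 69) (.n (.d 69) (.n (.d 69) (.n (.d 87) (.n (.d 87) (.n (.d 87) (.n (.d 87) (.n (.d 87) (.n (.n (.d 966) (.n (.d 966) (.d 78))) (.n (.n (.d 966) (.n (.d 966) (.d 78))) (.n (.n (.d 966) (.n (.d 966) (.d 78))) (.n (.d 92) (.n (.d 92) (.d 9)))))))))))))))))))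

/-- largest part 27 -/
def t27 : Cert :=
  (.n (.d 96) (.n (.d 69) (.n (.d 69) (.n (.d 69) (.n (.d 69) (.n (.d 69) (.n (.d 87) (.n (.d 87) (.n (.d 87) (.n (.d 87) (.n (.d 87) (.n (.d 87) (.n (.n (.d 966) (.n (.d 966) (.d 78))) (.n (.n (.d 966) (.n (.d 966) (.d 78))) (.n (.n (.d 966) (.n (.d 962) (.d 78))) (.n (.d 92) (.n (.d 92) (.n (.d 92) (.d 9)))))))))))))))))))

/-- largest part 26 -/
def t26 : Cert :=
  (.n (.d 96) (.n (.d 69) (.n (.d 87) (.n (.d 87) (.n (.d 87) (.n (.d 87) (.n (.d 87) (.n (.d 87) (.n (.d 87) (.n (.d 87) (.n (.d 87) (.n (.n (.d 966) (.n (.d 966) (.d 78))) (.n (.n (.d 966) (.n (.d 966) (.d 78))) (.n (.n (.d 966) (.n (.d 962) (.d 78))) (.n (.d 92) (.n (.d 92) (.n (.d 92) (.n (.d 92) (.d 9)))))))))))))))))))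

/-- largest part 25 -/
def t25 : Cert :=
  (.n (.d 96) (.n (.d 69) (.n (.d 87) (.n (.d 87) (.n (.d 87) (.n (.d 87) (.n (.d 87) (.n (.d 87) (.n (.d 87) (.n (.d 87) (.n (.n (.d 966) (.n (.d 966) (.d 78))) (.n (.n (.d 966) (.n (.d 966) (.d 78))) (.n (.n (.d 966) (.n (.d 962) (.d 78))) (.n (.d 92) (.n (.d 92) (.n (.d 92) (.n (.d 92) (.n (.d 92) (.d 9)))))))))))))))))))

/-- largest part 24 -/
def t24 : Cert :=
  (.n (.n .e (.n .e (.d 87))) (.n (.n .e (.d 87)) (.n (.d 87) (.n (.d 87) (.n (.d 87) (.n (.d 87) (.n (.d 87) (.n (.d 87) (.n (.d 87) (.n (.n (.d 966) (.n (.d 966) (.d 78))) (.n (.n (.d 966) (.n (.d 966) (.d 78))) (.n (.n (.d 966) (.n (.d 962) (.d 78))) (.n (.d 92) (.n (.d 92) (.n (.d 92) (.n (.d 92) (.n (.d 92) (.n (.d 92) (.d 9)))))))))))))))))))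

/-- largest part 23 -/
def t23 : Cert :=
  (.n (.n .e (.n .e (.d 87))) (.n (.n .e (.d 87)) (.n (.d 87) (.n (.d 87) (.n (.d 87) (.n (.d 87) (.n (.d 87) (.n (.d 87) (.n (.n (.d 966) (.n (.d 966) (.d 78))) (.n (.n (.d 966) (.n (.d 966) (.d 78))) (.n (.n (.d 966) (.n (.d 962) (.d 78))) (.n (.d 92) (.n (.d 92) (.n (.d 92) (.n (.d 92) (.n (.d 92) (.n (.n (.n (.n (.d 96666) (.n (.d 96666) (.d 9666))) (.n (.n (.d 83722) (.d 9662)) (.d 786))) (.n (.n (.d 8722) (.d 962)) (.d 96))) (.n (.n (.d 922) (.d 96)) (.d 9)))))))))))))))))))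

/-- largest part 22 -/
def t22 : Cert :=
  (.n (.n .e (.n .e (.d 87))) (.n (.n .e (.d 87)) (.n (.d 87) (.n (.d 87) (.n (.d 87) (.n (.d 87) (.n (.d 87) (.n (.n (.d 966) (.n (.d 966) (.d 78))) (.n (.n (.d 966) (.n (.d 966) (.d 78))) (.n (.n (.n (.d 7686) (.n (.d 9662) (.d 768))) (.n (.d 962) (.d 78))) (.n (.d 92) (.n (.d 92) (.n (.d 92) (.n (.d 92) (.n (.n (.d 827) (.n (.n (.n (.d 96666) (.d 7866)) (.d 786)) (.d 78))) (.n (.n (.n (.n (.d 96666) (.n (.d 96666) (.d 7686))) (.n (.n (.d 83722) (.d 7683)) (.d 768))) (.n (.n (.d 9622) (.d 786)) (.d 78))) (.n (.n (.d 922) (.n (.d 922) (.d 92))) (.n (.n (.d 922) (.d 92)) (.d 9)))))))))))))))))))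

/-- largest part 21 -/
def t21 : Cert :=
  (.n (.n .e (.n .e (.d 87))) (.n (.n (.d 876) (.d 87)) (.n (.d 87) (.n (.d 87) (.n (.d 87) (.n (.d 87) (.n (.n (.d 966) (.n (.d 966) (.d 78))) (.n (.n (.d 966) (.n (.n (.d 7866) (.d 786)) (.d 78))) (.n (.n (.n (.d 7686) (.n (.d 9662) (.d 768))) (.n (.d 962) (.d 78))) (.n (.d 92) (.n (.d 92) (.n (.d 92) (.n (.n (.d 827) (.n (.d 872) (.d 78))) (.n (.n (.d 827) (.n (.n (.n (.d 96666) (.d 7862)) (.d 786)) (.d 78))) (.n (.n (.n (.n (.d 96666) (.n (.n (.d 876322) (.d 78636)) (.d 7863))) (.n (.n (.d 96622) (.d 7862)) (.d 786))) (.n (.n (.d 8722) (.d 783)) (.d 78))) (.n (.n (.d 922) (.n (.d 922) (.d 78))) (.n (.n (.d 922) (.n (.n (.n (.d 96222) (.d 9626)) (.d 922)) (.d 96))) (.n (.n (.n (.d 9222) (.d 966)) (.d 92)) (.d 9)))))))))))))))))))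

/-- largest part 20 -/
def t20 : Cert :=
  (.n (.n (.d 768) (.n (.d 867) (.d 87))) (.n (.n (.d 876) (.d 87)) (.n (.d 87) (.n (.d 87) (.n (.d 87) (.n (.n (.d 966) (.n (.d 966) (.d 78))) (.n (.n (.n .e (.n (.d 7668) (.d 768))) (.n (.n (.d 7686) (.d 786)) (.d 78))) (.n (.n (.n (.d 7686) (.n (.d 9662) (.d 768))) (.n (.d 962) (.d 78))) (.n (.d 92) (.n (.d 92) (.n (.n (.d 827) (.n (.d 872) (.d 78))) (.n (.n (.d 827) (.n (.d 827) (.d 78))) (.n (.n (.d 827) (.n (.n (.n (.d 96666) (.d 7836)) (.d 782)) (.d 78))) (.n (.n (.n (.n (.n (.d 766668) (.n (.d 766668) (.d 76866))) (.n (.n (.d 867622) (.d 76863)) (.d 7686))) (.n (.n (.d 96622) (.d 7386)) (.d 768))) (.n (.n (.d 9622) (.d 786)) (.d 78))) (.n (.n (.d 922) (.n (.d 922) (.d 78))) (.n (.n (.n (.n (.n (.n (.d 9666666) (.n (.d 9666666) (.d 766386))) (.n (.n (.n (.d 68667222) (.d 7686622)) (.d 768666)) (.d 76638))) (.n (.n (.n (.d 9666222) (.d 768366)) (.d 76866)) (.d 7686))) (.n (.n (.n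 (.d 966222) (.d 72866)) (.d 7386)) (.d 768))) (.n (.n (.n (.d 96222) (.d 7862)) (.d 786)) (.d 78))) (.n (.n (.n (.d 9222) (.n (.d 9222) (.d 768))) (.n (.n (.n (.n (.d 872222) (.d 96226)) (.d 9266)) (.d 786)) (.d 92))) (.n (.n (.n (.n (.d 92222) (.d 9266)) (.d 926)) (.d 92)) (.d 9)))))))))))))))))))

/-- largest part 19 -/
def t19 : Cert :=
  (.n (.n (.d 768) (.n (.d 867) (.d 87))) (.n (.n (.d 876) (.d 87)) (.n (.d 87) (.n (.d 87) (.n (.n (.d 966) (.n (.n .e (.d 786)) (.d 78))) (.n (.n (.n (.d 7668) (.n (.d 7866) (.d 786))) (.n (.n (.d 7866) (.d 786)) (.d 78))) (.n (.n (.n (.d 7668) (.n (.d 9662) (.d 786))) (.n (.d 962) (.d 78))) (.n (.d 92) (.n (.n (.d 872) (.n (.d 872) (.d 78))) (.n (.n (.d 827) (.n (.d 827) (.d 78))) (.n (.n (.d 827) (.n (.d 827) (.d 78))) (.n (.n (.d 827) (.n (.n (.n (.n (.d 766668) (.d 78666)) (.d 7866)) (.d 786)) (.d 78))) (.n (.n (.n (.n (.n (.d 766668) (.n (.d 766686) (.d 76682))) (.n (.n (.d 866722) (.d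 73866)) (.d 7668))) (.n (.n (.d 96622) (.d 7286)) (.d 738))) (.n (.n (.d 8722) (.d 786)) (.d 78))) (.n (.n (.d 922) (.n (.n (.d 8227) (.d 786)) (.d 78))) (.n (.n (.n (.n (.n (.n (.d 9666666) (.n (.n (.d 76666686) (.d 7666386)) (.d 766826))) (.n (.n (.n (.d 83673222) (.d 7863666)) (.d 766866)) (.d 76682))) (.n (.n (.n (.d 8667222) (.d 786363)) (.d 78626)) (.d 7863))) (.n (.n (.n (.d 837222) (.d 78666)) (.d 7386)) (.d 786))) (.n (.n (.n (.d 96222) (.d 7822)) (.d 786)) (.d 78))) (.n (.n (.n (.d 9222) (.n (.n (.n (.n (.d 8372222) (.d 687666)) (.d 86722)) (.d 8676)) (.d 966))) (.n (.n (.n (.n (.d 962222) (.d 96266)) (.d 7866)) (.d 783)) (.d 92))) (.n (.n (.n (.n (.d 92222) (.d 9666)) (.d 922)) (.d 96)) (.d 9))))))))))))))))))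

/-- largest part 18 -/
def t18 : Cert :=
  (.n (.n (.d 876) (.n (.d 867) (.d 87))) (.n (.n (.d 876) (.d 87)) (.n (.d 87) (.n (.n (.n .e (.n .e (.d 786))) (.n (.n (.d 7866) (.d 786)) (.d 78))) (.n (.n (.n (.d 7686) (.n (.d 7668) (.d 768))) (.n (.n (.d 7686) (.d 786)) (.d 78))) (.n (.n (.n (.d 7668) (.n (.d 8762) (.d 786))) (.n (.d 872) (.d 78))) (.n (.n (.d 872) (.n (.d 872) (.d 78))) (.n (.n (.d 827) (.n (.d 827) (.d 78))) (.n (.n (.d 827) (.n (.d 827) (.d 78))) (.n (.n (.d 827) (.n (.d 827) (.d 78))) (.n (.n (.d 872) (.n (.n (.n (.n (.d 766668) (.d 78666)) (.d 7866)) (.d 782)) (.d 78))) (.n (.n (.n (.n (.n (.d 766668) (.n (.d 768666) (.d 76866))) (.n (.n (.d 867622) (.d 76866)) (.d 7683))) (.n (.n (.d 87322) (.d 7286)) (.d 768))) (.n (.n (.d 8722) (.d 783)) (.d 78))) (.n (.n (.n (.d 8227) (.n (.d 8722) (.d 738))) (.n (.n (.d 8722) (.d 786)) (.d 78))) (.n (.n (.n (.n (.n (.n (.n (.d 76666866) (.n (.d 76666668) (.d 7666683)))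 (.n (.n (.d 76666668) (.d 7666683)) (.d 768662))) (.n (.n (.n (.d 67668222) (.d 7626866)) (.d 762686)) (.d 76228))) (.n (.n (.n (.d 8373222) (.d 768633)) (.d 76836)) (.d 7238))) (.n (.n (.n (.d 837222) (.d 72866)) (.d 7282)) (.d 768))) (.n (.n (.n (.d 87222) (.d 7833)) (.d 786)) (.d 78))) (.n (.n (.n (.n (.d 82227) (.n (.n (.n (.n (.d 83372222) (.d 7668222)) (.d 722866)) (.d 82766)) (.d 7228))) (.n (.n (.n (.n (.d 8372222) (.d 786666)) (.d 86733)) (.d 7282)) (.d 786))) (.n (.n (.n (.n (.d 872222) (.d 87336)) (.d 7823)) (.d 876)) (.d 78))) (.n (.n (.n (.n (.n (.n (.n (.n (.n (.n (.n (.d 766666666668) (.d 96666666666)) (.d 9662622266)) (.d 862662227)) (.d 82223237)) (.d 9222662)) (.d 822272)) (.d 92222)) (.n (.d 86671) (.d 8367))) (.n (.d 8271) (.d 738))) (.n (.d 921) (.d 92))) (.n (.d 91) (.d 9))))))))))))))))))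

/-- largest part 17 -/
def t17 : Cert :=
  (.n (.n (.d 876) (.n (.d 867) (.d 87))) (.n (.n (.d 876) (.d 87)) (.n (.n (.n .e (.n (.d 7866) (.d 786))) (.n (.n (.d 7866) (.d 786)) (.d 78))) (.n (.n (.n (.d 7668) (.n (.d 7866) (.d 786))) (.n (.n (.d 7668) (.d 786)) (.d 78))) (.n (.n (.n (.d 7668) (.n (.d 7668) (.d 786))) (.n (.d 872) (.d 78))) (.n (.n (.d 827) (.n (.d 827) (.d 78))) (.n (.n (.d 827) (.n (.d 872) (.d 78))) (.n (.n (.d 872) (.n (.d 827) (.d 78))) (.n (.n (.d 827) (.n (.d 827) (.d 78))) (.n (.n (.d 827) (.n (.n (.n (.n (.d 768666) (.d 78666)) (.d 7866)) (.d 783)) (.d 78))) (.n (.n (.n (.n (.n (.d 766668) (.n (.d 766686) (.d 76286))) (.n (.n (.d 867322) (.d 76866)) (.d 7628))) (.n (.n (.d 83722) (.d 7686)) (.d 768))) (.n (.n (.d 8722) (.d 786)) (.d 78))) (.n (.n (.n (.d 8272) (.n (.d 8272) (.d 738))) (.n (.n (.d 8227) (.d 783)) (.d 78))) (.n (.n (.n (.n (.n (.n (.n (.d 76666668) (.n (.d 76666668) (.d 7662286))) (.n (.n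 (.d 76666668) (.d 7666286)) (.d 733866))) (.n (.n (.n (.d 86667222) (.d 7666866)) (.d 766683)) (.d 76628))) (.n (.n (.n (.d 8676222) (.d 786266)) (.d 78663)) (.d 7338))) (.n (.n (.n (.d 867222) (.d 78623)) (.d 7383)) (.d 786))) (.n (.n (.n (.d 87222) (.d 7832)) (.d 786)) (.d 78))) (.n (.n (.n (.n (.d 82272) (.n (.n (.n (.n (.d 83372222) (.d 8227333)) (.d 678222)) (.d 72283)) (.d 6867))) (.n (.n (.n (.n (.d 8372222) (.d 738626)) (.d 86733)) (.d 6786)) (.d 738))) (.n (.n (.n (.n (.d 872222) (.d 87323)) (.d 8763)) (.d 876)) (.d 87))) (.n (.n (.n (.n (.n (.n (.n (.n (.n (.n (.n (.d 766666668666) (.d 82222666367)) (.d 8222333276)) (.d 822226637)) (.d 82223327)) (.d 8222672)) (.d 822227)) (.n (.d 822731) (.d 83337))) (.n (.d 83371) (.d 7228))) (.n (.d 8671) (.d 962))) (.n (.d 871) (.d 96))) (.n (.n (.n (.n (.n (.n (.n (.d 92222212) (.d 7222823)) (.d 866676)) (.d 76686)) (.d 8227)) (.d 837)) (.d 91)) (.d 9)))))))))))))))))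

/-- largest part 16 -/
def t16 : Cert :=
  (.n (.n (.n .e (.n .e (.d 768))) (.n (.n .e (.d 876)) (.d 87))) (.n (.n (.n (.d 7668) (.n (.d 7866) (.d 786))) (.n (.n (.d 7866) (.d 786)) (.d 78))) (.n (.n (.n (.d 7668) (.n (.d 7866) (.d 786))) (.n (.n (.d 7668) (.d 786)) (.d 78))) (.n (.n (.n (.d 7668) (.n (.d 7668) (.d 786))) (.n (.d 872) (.d 78))) (.n (.n (.d 872) (.n (.d 872) (.d 78))) (.n (.n (.d 827) (.n (.d 872) (.d 78))) (.n (.n (.d 827) (.n (.d 827) (.d 78))) (.n (.n (.d 872) (.n (.d 872) (.d 78))) (.n (.n (.d 827) (.n (.n (.n (.n (.d 766668) (.d 78666)) (.d 7863)) (.d 786)) (.d 78))) (.n (.n (.n (.n (.n (.d 766668) (.n (.d 766686) (.d 76638))) (.n (.n (.d 867322) (.d 76836)) (.d 7628))) (.n (.n (.d 86722) (.d 7386)) (.d 768))) (.n (.n (.d 8722) (.d 783)) (.d 78))) (.n (.n (.n (.d 8272) (.n (.d 8272) (.d 738))) (.n (.n (.d 8722) (.d 783)) (.d 78))) (.n (.n (.n (.n (.n (.n (.n (.d 76666686) (.n (.d 76666668) (.d 7666668)))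 (.n (.n (.d 76666686) (.d 7666683)) (.d 763862))) (.n (.n (.n (.d 86667222) (.d 7622866)) (.d 766683)) (.d 76386))) (.n (.n (.n (.d 8673222) (.d 733866)) (.d 76866)) (.d 7826))) (.n (.n (.n (.d 867222) (.d 78266)) (.d 7686)) (.d 783))) (.n (.n (.n (.d 87222) (.d 7863)) (.d 786)) (.d 78))) (.n (.n (.n (.n (.d 82272) (.n (.n (.n (.n (.d 83672222) (.d 8676336)) (.d 836733)) (.d 68276)) (.d 8227))) (.n (.n (.n (.n (.d 8372222) (.d 687333)) (.d 68763)) (.d 7383)) (.d 768))) (.n (.n (.n (.n (.d 872222) (.d 78666)) (.d 8762)) (.d 782)) (.d 87))) (.n (.n (.n (.n (.n (.n (.n (.n (.n (.n (.n (.d 766666666686) (.d 86222266376)) (.d 8322266372)) (.d 832222337)) (.d 83222273)) (.d 8322227)) (.d 822272)) (.n (.d 836671) (.d 82227))) (.n (.d 82271) (.d 9222))) (.n (.d 8671) (.d 738))) (.n (.d 871) (.d 92))) (.n (.n (.n (.n (.n (.n (.n (.n (.d 822221722) (.d 86666676)) (.d 9666666)) (.d 833637)) (.d 86676)) (.d 7668)) (.d 728)) (.d 91)) (.d 9))))))))))))))))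

/-- largest part 15 -/
def t15 : Cert :=
  (.n (.n (.n (.n .e (.n .e (.n .e (.d 7686)))) (.n (.n .e (.n .e (.d 6678))) (.n (.n .e (.d 6678)) (.d 768)))) (.n (.n (.n .e (.n .e (.d 7686))) (.n (.n .e (.d 7668)) (.d 876))) (.n (.n (.n .e (.d 7686)) (.d 876)) (.d 87)))) (.n (.n (.n (.n .e (.n .e (.d 7668))) (.n (.n .e (.d 7668)) (.d 786))) (.n (.n (.n .e (.d 7866)) (.d 786)) (.d 78))) (.n (.n (.n (.n .e (.d 7668)) (.n (.d 8762) (.d 786))) (.n (.d 872) (.d 78))) (.n (.n (.d 827) (.n (.d 872) (.d 78))) (.n (.n (.d 827) (.n (.d 827) (.d 78))) (.n (.n (.d 872) (.n (.d 827) (.d 78))) (.n (.n (.d 827) (.n (.d 827) (.d 78))) (.n (.n (.d 827) (.n (.n (.n (.n (.d 786666) (.d 78666)) (.d 7863)) (.d 786)) (.d 78))) (.n (.n (.n (.n (.n (.d 766668) (.n (.d 766668) (.d 76638))) (.n (.n (.d 766866) (.d 73686)) (.d 7682))) (.n (.n (.d 87322) (.d 7686)) (.d 768))) (.n (.n (.d 8722) (.d 782)) (.d 78))) (.n (.n (.n (.d 8722) (.n (.d 8227) (.d 728)))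 (.n (.n (.d 8227) (.d 783)) (.d 78))) (.n (.n (.n (.n (.n (.n (.n (.d 76666668) (.n (.d 76666668) (.d 7226668))) (.n (.n (.d 76668666) (.d 7666823)) (.d 766686))) (.n (.n (.n (.d 83367222) (.d 7366822)) (.d 728666)) (.d 76832))) (.n (.n (.n (.d 8736222) (.d 768633)) (.d 76832)) (.d 7383))) (.n (.n (.n (.d 876222) (.d 76866)) (.d 7286)) (.d 728))) (.n (.n (.n (.d 87222) (.d 7866)) (.d 783)) (.d 78))) (.n (.n (.n (.n (.d 82272) (.n (.n (.n (.n (.d 86672222) (.d 8267666)) (.d 823733)) (.d 86676)) (.d 8227))) (.n (.n (.n (.n (.d 8672222) (.d 687666)) (.d 72866)) (.d 8676)) (.d 768))) (.n (.n (.n (.n (.d 872222) (.d 78333)) (.d 8733)) (.d 786)) (.d 87))) (.n (.n (.n (.n (.n (.n (.n (.n (.n (.n (.n (.d 766666666668) (.d 82266273236)) (.d 8662626722)) (.d 822662732)) (.d 82273223)) (.d 8226227)) (.d 822722)) (.n (.d 876261) (.d 92222))) (.n (.d 82271) (.d 8227))) (.n (.d 8371) (.d 786))) (.n (.d 871) (.d 96))) (.n (.n (.n (.n (.n (.n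 (.n (.n (.d 822227221) (.d 82222722)) (.d 7222228)) (.d 833763)) (.d 96666)) (.d 9222)) (.d 782)) (.d 91)) (.d 9)))))))))))))))

/-- largest part 14 -/
def t14 : Cert :=
  (.n (.n (.n (.n .e (.n .e (.n .e (.d 7686)))) (.n (.n .e (.n .e (.d 6678))) (.n (.d 7682) (.d 768)))) (.n (.n (.n .e (.n .e (.d 7686))) (.n (.d 8762) (.d 876))) (.n (.d 872) (.d 87)))) (.n (.n (.n (.n .e (.n .e (.d 7686))) (.n (.d 8762) (.d 768))) (.n (.d 872) (.d 78))) (.n (.n (.d 827) (.n (.d 872) (.d 78))) (.n (.n (.d 827) (.n (.d 827) (.d 78))) (.n (.n (.d 827) (.n (.d 872) (.d 78))) (.n (.n (.d 827) (.n (.d 872) (.d 78))) (.n (.n (.d 827) (.n (.n (.n (.n (.d 786666) (.d 78666)) (.d 7826)) (.d 782)) (.d 78))) (.n (.n (.n (.n (.n (.d 766668) (.n (.d 766668) (.d 73686))) (.n (.n (.d 836722) (.d 76682)) (.d 7382))) (.n (.n (.d 87622) (.d 7683)) (.d 738))) (.n (.n (.d 8722) (.d 783)) (.d 78))) (.n (.n (.n (.d 8722) (.n (.d 8227) (.d 786))) (.n (.n (.d 8227)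 (.d 783)) (.d 78))) (.n (.n (.n (.n (.n (.n (.n (.d 76666668) (.n (.d 76666668) (.d 7668636))) (.n (.n (.d 76666668) (.d 7668266)) (.d 766863))) (.n (.n (.n (.d 83367222) (.d 7226866)) (.d 738666)) (.d 73826))) (.n (.n (.n (.d 8376222) (.d 786266)) (.d 73836)) (.d 7382))) (.n (.n (.n (.d 876222) (.d 78666)) (.d 7286)) (.d 738))) (.n (.n (.n (.d 87222) (.d 7833)) (.d 782)) (.d 78))) (.n (.n (.n (.n (.d 82272) (.n (.n (.n (.n (.d 83372222) (.d 8237666)) (.d 768222)) (.d 86676)) (.d 7383))) (.n (.n (.n (.n (.d 8672222) (.d 837223)) (.d 73866)) (.d 8676)) (.d 768))) (.n (.n (.n (.n (.d 872222) (.d 87322)) (.d 8726)) (.d 786)) (.d 87))) (.n (.n (.n (.n (.n (.n (.n (.n (.n (.n (.n (.d 766666666668) (.d 82222337666)) (.d 8222233367)) (.d 822223376)) (.d 82226276)) (.d 8222237)) (.d 822272)) (.n (.d 836731) (.d 86667))) (.n (.d 86671) (.d 7382))) (.n (.d 8761) (.d 966))) (.n (.d 871) (.d 92))) (.n (.n (.n (.n (.n (.n (.n (.n (.d 822222271)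 (.d 96666162)) (.d 8222722)) (.d 733338)) (.d 96262)) (.d 9666)) (.d 768)) (.d 91)) (.d 9))))))))))))))

/-- largest part 13 -/
def t13 : Cert :=
  (.n (.n (.n (.n .e (.n .e (.n .e (.d 8766)))) (.n (.n .e (.d 8762)) (.n (.d 8762) (.d 876)))) (.n (.n (.n .e (.d 8672)) (.d 872)) (.n (.d 872) (.d 87)))) (.n (.n (.n (.n (.d 68726) (.d 8762)) (.d 872)) (.n (.d 827) (.d 78))) (.n (.n (.d 872) (.n (.d 872) (.d 78))) (.n (.n (.d 872) (.n (.d 827) (.d 78))) (.n (.n (.d 872) (.n (.d 827) (.d 78))) (.n (.n (.d 872) (.n (.n (.n (.n (.d 786666) (.d 78666)) (.d 7862)) (.d 786)) (.d 78))) (.n (.n (.n (.n (.n (.d 766668) (.n (.d 766686) (.d 73686))) (.n (.n (.d 866722) (.d 76686)) (.d 7832))) (.n (.n (.d 87322) (.d 7826)) (.d 786))) (.n (.n (.d 8722) (.d 783)) (.d 78))) (.n (.n (.n (.d 8227) (.n (.d 8227) (.d 783))) (.n (.n (.d 8272) (.d 786)) (.d 78))) (.n (.n (.n (.n (.n (.n (.n (.d 76666668) (.n (.d 76666866) (.d 7266826))) (.n (.n (.d 76666866)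 (.d 7336862)) (.d 726683))) (.n (.n (.n (.d 86367222) (.d 7666866)) (.d 782236)) (.d 73238))) (.n (.n (.n (.d 8337222) (.d 786666)) (.d 78366)) (.d 7826))) (.n (.n (.n (.d 873222) (.d 78363)) (.d 7866)) (.d 782))) (.n (.n (.n (.d 87222) (.d 7833)) (.d 782)) (.d 78))) (.n (.n (.n (.n (.d 82272) (.n (.n (.n (.n (.d 87362222) (.d 7862666)) (.d 866766)) (.d 73386)) (.d 8327))) (.n (.n (.n (.n (.d 8762222) (.d 786633)) (.d 78366)) (.d 8762)) (.d 786))) (.n (.n (.n (.n (.d 872222) (.d 87666)) (.d 7866)) (.d 876)) (.d 78))) (.n (.n (.n (.n (.n (.n (.n (.n (.n (.n (.n (.d 766666666686) (.d 82222333667)) (.d 8622626672)) (.d 822223337)) (.d 82222637)) (.d 8222267)) (.d 822272)) (.n (.d 876321) (.d 67238))) (.n (.d 87631) (.d 8722))) (.n (.d 8761) (.d 678))) (.n (.d 871) (.d 87))) (.n (.n (.n (.n (.n (.n (.n (.n (.d 822222172) (.d 83232237)) (.d 7333383)) (.d 786361)) (.d 82217)) (.d 8337)) (.d 786)) (.d 87)) (.n (.d 78) .e)))))))))))))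

/-- largest part 12 -/
def t12 : Cert :=
  (.n (.n (.n (.n (.d 87662) (.n (.d 87662) (.d 6278))) (.n (.n (.d 62687) (.d 8726)) (.d 872))) (.n (.n (.n (.d 66278) (.d 8762)) (.d 827)) (.n (.d 827) (.d 87)))) (.n (.n (.n (.n (.d 68276) (.d 8267)) (.d 827)) (.n (.d 827) (.d 78))) (.n (.n (.d 827) (.n (.d 872) (.d 78))) (.n (.n (.d 827) (.n (.d 872) (.d 78))) (.n (.n (.d 872) (.n (.n (.n (.n (.d 786666) (.d 28367)) (.d 7866)) (.d 783)) (.d 78))) (.n (.n (.n (.n (.n (.d 766668) (.n (.d 768666) (.d 76368))) (.n (.n (.d 873622) (.d 23687)) (.d 7686))) (.n (.n (.d 87322) (.d 7686)) (.d 738))) (.n (.n (.d 8722) (.d 786)) (.d 78))) (.n (.n (.n (.d 8227) (.n (.d 8227) (.d 768))) (.n (.n (.d 8227) (.d 786)) (.d 78))) (.n (.n (.n (.n (.n (.n (.n (.d 76666686) (.n (.d 76666686) (.d 7286263))) (.n (.n (.d 76666866) (.d 2666837)) (.d 766638))) (.n (.n (.n (.d 86676222) (.d 2766833)) (.d 733682)) (.d 73823))) (.n (.n (.n (.d 8736222) (.d 728266))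 (.d 28766)) (.d 7668))) (.n (.n (.n (.d 873222) (.d 72866)) (.d 7686)) (.d 738))) (.n (.n (.n (.d 87222) (.d 7866)) (.d 783)) (.d 78))) (.n (.n (.n (.n (.d 82227) (.n (.n (.n (.n (.d 83372222) (.d 8726333)) (.d 683766)) (.d 82276)) (.d 7338))) (.n (.n (.n (.n (.d 8372222) (.d 782336)) (.d 28367)) (.d 7683)) (.d 782))) (.n (.n (.n (.n (.d 872222) (.d 28373)) (.d 8736)) (.d 786)) (.d 87))) (.n (.n (.n (.n (.n (.n (.n (.n (.n (.n (.n (.d 766666666668) (.d 82222336367)) (.d 8222266673)) (.d 822226667)) (.d 82223627)) (.d 8272622)) (.d 822227)) (.n (.d 826731) (.d 36678))) (.n (.d 83761) (.d 8373))) (.n (.d 8271) (.d 378))) (.n (.d 871) (.d 87))) (.n (.n (.n (.n (.n (.n (.n (.n (.d 822222217) (.d 72622821)) (.d 3666678)) (.d 866617)) (.d 83237)) (.d 7686)) (.d 768)) (.d 87)) (.n (.d 87) .e))))))))))))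

/-- largest part 11 -/
def t11 : Cert :=
  (.n (.n (.n (.n (.d 66782) (.n (.d 66782) (.d 8627))) (.n (.n (.d 66827) (.d 7286)) (.d 728))) (.n (.n (.n (.n .e (.d 86762)) (.d 8726)) (.d 827)) (.n (.d 827) (.d 87)))) (.n (.n (.n (.n (.n (.d 826676) (.d 82667)) (.d 8672)) (.d 827)) (.n (.d 827) (.d 78))) (.n (.n (.d 827) (.n (.d 827) (.d 78))) (.n (.n (.d 872) (.n (.n (.n (.n (.d 786666) (.d 78623)) (.d 2876)) (.d 786)) (.d 78))) (.n (.n (.n (.n (.n (.d 766686) (.n (.d 766668) (.d 28763))) (.n (.n (.d 867622) (.d 28763)) (.d 7283))) (.n (.n (.d 83722) (.d 7386)) (.d 287))) (.n (.n (.d 8722) (.d 782)) (.d 78))) (.n (.n (.n (.d 8272) (.n (.d 8227) (.d 738))) (.n (.n (.d 8227) (.d 786)) (.d 78))) (.n (.n (.n (.n (.n (.n (.n (.d 76666686) (.n (.d 76666686) (.d 7666668))) (.n (.n (.d 76666866) (.d 7836226)) (.d 266687))) (.n (.n (.n (.d 83676222) (.d 7266866)) (.d 276683)) (.d 23387))) (.n (.n (.n (.d 8367222) (.d 766866)) (.d 76682))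 (.d 7836))) (.n (.n (.n (.d 873222) (.d 78266)) (.d 7863)) (.d 287))) (.n (.n (.n (.d 87222) (.d 7866)) (.d 782)) (.d 78))) (.n (.n (.n (.n (.d 82272) (.n (.n (.n (.n (.d 83672222) (.d 7862333)) (.d 836722)) (.d 78636)) (.d 7338))) (.n (.n (.n (.n (.d 8372222) (.d 827666)) (.d 67866)) (.d 7386)) (.d 678))) (.n (.n (.n (.n (.d 872222) (.d 78336)) (.d 7866)) (.d 872)) (.d 87))) (.n (.n (.n (.n (.n (.n (.n (.n (.n (.n (.n (.d 766666666668) (.d 83366222276)) (.d 8323222736)) (.d 822723266)) (.d 82272326)) (.d 8227232)) (.d 822227)) (.n (.d 832761) (.d 86667))) (.n (.d 87631) (.d 7338))) (.n (.d 8721) (.d 687))) (.n (.d 871) (.d 87))) (.n (.n (.n (.n (.n (.n (.n (.n (.d 822222217) (.d 76666681)) (.d 7662238)) (.d 823372)) (.d 82227)) (.d 7682)) (.d 738)) (.d 87)) (.n (.d 87) .e)))))))))))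

/-- largest part 10 -/
def t10 : Cert :=
  (.n (.n (.n (.n (.n (.d 667628) (.n (.d 876266) (.d 87626))) (.n (.n (.d 876266) (.d 87662)) (.d 8762))) (.n (.n (.n (.d 666278) (.d 87662)) (.d 6287)) (.d 872))) (.n (.n (.n (.n (.d 876662) (.d 83726)) (.d 8267)) (.d 827)) (.n (.d 827) (.d 87)))) (.n (.n (.n (.n (.n (.d 276668) (.d 83267)) (.d 8276)) (.d 827)) (.n (.d 827) (.d 78))) (.n (.n (.d 827) (.n (.n (.n (.n (.d 786666) (.d 78666)) (.d 7823)) (.d 287)) (.d 78))) (.n (.n (.n (.n (.n (.d 766686) (.n (.d 766686) (.d 26678))) (.n (.n (.d 866722) (.d 27686)) (.d 2738))) (.n (.n (.d 87322) (.d 7286)) (.d 738))) (.n (.n (.d 8722) (.d 287)) (.d 78))) (.n (.n (.n (.d 8272) (.n (.d 8227) (.d 728))) (.n (.n (.d 8722) (.d 782)) (.d 78))) (.n (.n (.n (.n (.n (.n (.n (.d 76666668) (.n (.d 76666668) (.d 7686322))) (.n (.n (.d 76666668) (.d 7686332)) (.d 768632))) (.n (.n (.n (.d 83367222) (.d 7266833)) (.d 768336)) (.d 76822))) (.n (.n (.n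 (.d 8736222) (.d 768223)) (.d 73836)) (.d 7382))) (.n (.n (.n (.d 876222) (.d 76833)) (.d 7386)) (.d 768))) (.n (.n (.n (.d 87222) (.d 7862)) (.d 783)) (.d 78))) (.n (.n (.n (.n (.d 82722) (.n (.n (.n (.n (.d 83762222) (.d 7383366)) (.d 738622)) (.d 83726)) (.d 8272))) (.n (.n (.n (.n (.d 8672222) (.d 827333)) (.d 86766)) (.d 7863)) (.d 738))) (.n (.n (.n (.n (.d 872222) (.d 78222)) (.d 8723)) (.d 876)) (.d 78))) (.n (.n (.n (.n (.n (.n (.n (.n (.n (.n (.n (.d 766666666668) (.d 82622323736)) (.d 8262266627)) (.d 826223237)) (.d 82622327)) (.d 8222273)) (.d 822227)) (.n (.d 876321) (.d 82237))) (.n (.d 86671) (.d 8337))) (.n (.d 8371) (.d 287))) (.n (.d 871) (.d 87))) (.n (.n (.n (.n (.n (.n (.n (.n (.d 822222271) (.d 23333728)) (.d 8333731)) (.d 322768)) (.d 37328)) (.d 6817)) (.d 867)) (.d 87)) (.n (.d 87) .e))))))))))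

/-- largest part 9 -/
def t9 : Cert :=
  (.n (.n (.n (.n (.n (.d 667862) (.n (.d 667826) (.d 87326))) (.n (.n (.d 872666) (.d 66287)) (.d 8732))) (.n (.n (.n (.d 662768) (.d 76823)) (.d 7682)) (.d 872))) (.n (.n (.n (.n (.d 626768) (.d 86276)) (.d 8732)) (.d 827)) (.n (.d 827) (.d 87)))) (.n (.n (.n (.n (.n (.d 628676) (.d 82676)) (.d 8267)) (.d 827)) (.n (.n (.n (.n (.n (.d 2766668) (.d 786666)) (.d 78663)) (.d 7866)) (.d 782)) (.d 78))) (.n (.n (.n (.n (.n (.n (.d 7662866) (.d 766686)) (.n (.d 766668) (.d 76628))) (.n (.n (.d 766668) (.d 28766)) (.d 7382))) (.n (.n (.d 87322) (.d 7286)) (.d 287))) (.n (.n (.d 8722) (.d 786)) (.d 78))) (.n (.n (.n (.d 8227) (.n (.d 8272) (.d 738))) (.n (.n (.d 8722) (.d 786)) (.d 78))) (.n (.n (.n (.n (.n (.n (.n (.d 76666668) (.n (.d 76666686) (.d 7666328))) (.n (.n (.d 76668666) (.d 7383626)) (.d 766686))) (.n (.n (.n (.d 86373222) (.d 7383266)) (.d 738322)) (.d 73836))) (.n (.n (.n (.d 8337222)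 (.d 738223)) (.d 73863)) (.d 7282))) (.n (.n (.n (.d 873222) (.d 72866)) (.d 7682)) (.d 738))) (.n (.n (.n (.d 87222) (.d 7863)) (.d 786)) (.d 78))) (.n (.n (.n (.n (.d 82227) (.n (.n (.n (.n (.d 86762222) (.d 8676222)) (.d 872322)) (.d 28762)) (.d 7338))) (.n (.n (.n (.n (.d 8672222) (.d 728333)) (.d 28733)) (.d 7383)) (.d 728))) (.n (.n (.n (.n (.d 872222) (.d 87333)) (.d 7833)) (.d 782)) (.d 87))) (.n (.n (.n (.n (.n (.n (.n (.n (.n (.n (.n (.d 766666668666) (.d 82276622663)) (.d 8227662266)) (.d 822233726)) (.d 82276622)) (.d 8222627)) (.d 822227)) (.n (.d 822761) (.d 73338))) (.n (.d 83721) (.d 8227))) (.n (.d 8371) (.d 678))) (.n (.d 871) (.d 87))) (.n (.n (.n (.n (.n (.n (.n (.n (.d 822222217) (.d 73823321)) (.d 7333836)) (.d 716283)) (.d 83337)) (.d 2871)) (.d 687)) (.d 87)) (.n (.d 87) .e)))))))))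

/-- largest part 8 -/
def t8 : Cert :=
  (.n (.n (.n (.n (.n (.n (.n .e (.n .e (.d 6626738))) (.n (.n .e (.d 6626873)) (.d 738662))) (.n (.n (.d 8762666) (.d 876236)) (.d 87626))) (.n (.n (.n (.d 6627668) (.d 738266)) (.d 87623)) (.d 8762))) (.n (.n (.n (.n (.d 6276668) (.d 872666)) (.d 87266)) (.d 8723)) (.d 872))) (.n (.n (.n (.n (.n (.d 7266686) (.n (.d 7266668) (.d 726638))) (.n (.n (.d 8636722) (.d 763826)) (.d 76628))) (.n (.n (.d 867622) (.d 87626)) (.d 7368))) (.n (.n (.d 87622) (.d 8736)) (.d 728))) (.n (.n (.d 8722) (.d 872)) (.d 87)))) (.n (.n (.n (.n (.n (.n (.n (.n .e (.n .e (.d 76668623))) (.n (.n .e (.d 76663286)) (.d 7666862))) (.n (.n (.d 76668622) (.d 7666862)) (.d 766686))) (.n (.n (.d 8736622) (.d 726866)) (.d 76668))) (.n (.n (.d 873622) (.d 76686)) (.d 7268))) (.n (.n (.d 86722) (.d 7866)) (.d 786))) (.n (.n (.d 8722) (.d 783)) (.d 78))) (.n (.n (.n (.d 8272) (.n (.d 8272) (.d 786))) (.n (.n (.d 8227) (.d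 782)) (.d 78))) (.n (.n (.n (.n (.n (.n (.n (.d 76666668) (.n (.d 76666668) (.d 7332862))) (.n (.n (.d 76668666) (.d 7336866)) (.d 766686))) (.n (.n (.n (.d 83376222) (.d 7232866)) (.d 763686)) (.d 73328))) (.n (.n (.n (.d 8676222) (.d 762866)) (.d 76833)) (.d 7228))) (.n (.n (.n (.d 873222) (.d 72833)) (.d 7286)) (.d 768))) (.n (.n (.n (.d 87222) (.d 7866)) (.d 782)) (.d 78))) (.n (.n (.n (.n (.d 82272) (.n (.n (.n (.n (.d 83732222) (.d 2768666)) (.d 733822)) (.d 76866)) (.d 2738))) (.n (.n (.n (.n (.d 8672222) (.d 768222)) (.d 67866)) (.d 2876)) (.d 678))) (.n (.n (.n (.n (.d 872222) (.d 78333)) (.d 8736)) (.d 786)) (.d 87))) (.n (.n (.n (.n (.n (.n (.n (.n (.n (.n (.n (.d 766666666866) (.d 82266762266)) (.d 8226676226)) (.d 822667622)) (.d 82223732)) (.d 8222372)) (.d 822227)) (.n (.d 827361) (.d 73338))) (.n (.d 83671) (.d 7282))) (.n (.d 8271) (.d 768))) (.n (.d 871) (.d 87))) (.n (.n (.n (.n (.n (.n (.n (.n (.d 822212722)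 (.d 66686667)) (.d 7333338)) (.d 867666)) (.d 76338)) (.d 7282)) (.d 738)) (.d 87)) (.n (.d 87) .e))))))))

/-- largest part 7 -/
def t7 : Cert :=
  (.n (.n (.n (.n (.n (.n (.n (.n .e (.n .e (.n (.d 668726632) (.d 66872663)))) (.n (.n (.d 668736622) (.n (.d 668726632) (.d 66623876))) (.n (.d 66623872) (.d 6687266)))) (.n (.n (.d 66668722) (.n (.d 66667282) (.d 6666873))) (.n (.d 6687232) (.d 668736)))) (.n (.n (.n (.d 66876262) (.d 6687622)) (.n (.d 6687262) (.d 666378))) (.n (.d 668722) (.d 66872)))) (.n (.n (.n (.n (.d 66687226) (.d 6687226)) (.d 637822)) (.n (.d 637822) (.d 63782))) (.n (.d 76282) (.d 7382)))) (.n (.n (.n (.n (.n (.d 66867622) (.d 7386622)) (.d 638227)) (.d 76822)) (.n (.d 76822) (.d 7386))) (.n (.d 7282) (.d 768)))) (.n (.n (.n (.n (.n (.n (.n (.d 876226666) (.d 86666722)) (.d 8762266)) (.d 876226)) (.d 83227)) (.d 8722)) (.n (.d 8272) (.d 738))) (.n (.n (.d 8722) (.d 876)) (.d 87)))) (.n (.n (.n (.n (.n (.n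 (.n (.n (.d 866672662) (.d 86667232)) (.d 8666722)) (.d 826267)) (.d 82672)) (.d 8722)) (.n (.d 8722) (.d 786))) (.n (.n (.d 8272) (.d 782)) (.d 78))) (.n (.n (.n (.n (.n (.n (.n (.n (.n (.d 7666666228) (.d 766666683)) (.d 76666668)) (.n (.d 76666686) (.d 7666268))) (.n (.n (.d 76666668) (.d 2666782)) (.d 273682))) (.n (.n (.n (.d 86673222) (.d 7228366)) (.d 266872)) (.d 76668))) (.n (.n (.n (.d 8337222) (.d 286762)) (.d 72686)) (.d 2872))) (.n (.n (.n (.d 876222) (.d 78626)) (.d 7863)) (.d 782))) (.n (.n (.n (.d 87222) (.d 7822)) (.d 782)) (.d 78))) (.n (.n (.n (.n (.d 82722) (.n (.n (.n (.n (.d 86762222) (.d 7668222)) (.d 867222)) (.d 73826)) (.d 8272))) (.n (.n (.n (.n (.d 8672222) (.d 287666)) (.d 73822)) (.d 3873)) (.d 678))) (.n (.n (.n (.n (.d 872222) (.d 78666)) (.d 8733)) (.d 782)) (.d 87))) (.n (.n (.n (.n (.n (.n (.n (.n (.n (.n (.n (.d 766666666668) (.d 82626632327)) (.d 8322322676)) (.d 832232267)) (.d 82622276))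 (.d 8262227)) (.d 827222)) (.n (.d 833731) (.d 82722))) (.n (.d 82721) (.d 2872))) (.n (.d 8271) (.d 768))) (.n (.d 871) (.d 87))) (.n (.n (.n (.n (.n (.n (.n (.n (.d 822222172) (.d 87262621)) (.d 6872331)) (.d 867166)) (.d 26678)) (.d 3738)) (.d 872)) (.d 78)) (.n (.d 87) .e)))))))

/-- largest part 6 -/
def t6 : Cert :=
  (.n (.n (.n (.n (.n (.n (.n (.n (.d 666262867) (.n (.d 226676668) (.d 62866726))) (.n (.n (.d 226676668) (.d 62866732)) (.d 2266873))) (.n (.n (.n (.d 226686766) (.d 22668733)) (.d 2266867)) (.d 226687))) (.n (.n (.n (.n (.d 628676662) (.d 66832627)) (.d 3262867)) (.d 628276)) (.d 73822))) (.n (.n (.n (.n (.n (.d 768666622) (.d 72826663)) (.d 7386622)) (.d 768232)) (.d 72826)) (.d 7282))) (.n (.n (.n (.n (.n (.n (.n (.d 2276666686) (.d 738666226)) (.d 62866276)) (.d 7286662)) (.d 738232)) (.d 62827)) (.d 2287)) (.n (.d 2287) (.d 738)))) (.n (.n (.n (.n (.n (.n (.n (.n (.d 2266666678) (.d 823676326)) (.d 87326266))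 (.d 8266267)) (.d 873262)) (.d 82276)) (.d 8722)) (.n (.n (.n (.d 837222) (.d 87266)) (.d 7683)) (.d 876))) (.n (.n (.n (.d 87222) (.d 8733)) (.d 876)) (.d 87)))) (.n (.n (.n (.n (.n (.n (.n (.n (.n (.d 2666672686) (.n (.d 2666666728) (.d 766662268))) (.n (.n (.d 2666672866) (.d 766662863)) (.d 76666686))) (.n (.n (.n (.d 8336667222) (.d 766666836)) (.d 26673286)) (.d 7666833))) (.n (.n (.n (.d 876363222) (.d 76638262)) (.d 7663832)) (.d 766282))) (.n (.n (.n (.d 87636222) (.d 7238623)) (.d 722683)) (.d 76668))) (.n (.n (.n (.d 8667222) (.d 726833)) (.d 73866)) (.d 7238))) (.n (.n (.n (.d 876222) (.d 73826)) (.d 7866)) (.d 738))) (.n (.n (.n (.d 87222) (.d 7866)) (.d 786)) (.d 78))) (.n (.n (.n (.n (.d 82272) (.n (.n (.n (.n (.d 86672222) (.d 2833227)) (.d 728266)) (.d 38276)) (.d 3867))) (.n (.n (.n (.n (.d 8372222) (.d 738666)) (.d 72833)) (.d 8273)) (.d 678))) (.n (.n (.n (.n (.d 872222) (.d 28272)) (.d 8766)) (.d 786)) (.d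 87))) (.n (.n (.n (.n (.n (.n (.n (.n (.n (.n (.n (.d 766666666686) (.d 83326232762)) (.d 8262626672)) (.d 822233327)) (.d 82626227)) (.d 8222723)) (.d 822272)) (.n (.d 832271) (.d 37228))) (.n (.d 82721) (.d 7338))) (.n (.d 8271) (.d 867))) (.n (.d 871) (.d 87))) (.n (.n (.n (.n (.n (.n (.n (.n (.d 822222217) (.d 82222726)) (.d 2222738)) (.d 833373)) (.d 86671)) (.d 2873)) (.d 728)) (.d 87)) (.n (.d 87) .e))))))

/-- largest part 5 -/
def t5 : Cert :=
  (.n (.n (.n (.n (.n (.n (.n (.n (.n (.n (.n (.n .e (.n .e (.n .e (.d 662632867636)))) (.n (.n .e (.n .e (.d 666686622733))) (.n (.n (.d 6666667832322) (.d 666686622733)) (.d 66263286763)))) (.n (.n (.n .e (.n (.d 6636366627822) (.d 662632867366))) (.n (.d 666662383722) (.d 66363666278))) (.n (.n (.d 666666783222) (.d 66363666278)) (.d 6666866227)))) (.n (.n (.n (.d 666666783222) (.n (.d 666673628262) (.d 66668662372))) (.n (.d 63866376222) (.d 6666623278))) (.n (.n (.d 63866376222)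 (.d 6666866273)) (.d 666666783)))) (.n (.n (.n (.d 66666678222) (.n (.d 63866376222) (.d 6666736228))) (.n (.d 6666627822) (.d 667683266))) (.n (.n (.d 6676832622) (.d 667683266)) (.d 63866376)))) (.n (.n (.n (.n (.d 66768662226) (.d 6676863222)) (.n (.d 6386632722) (.d 872662633))) (.n (.d 667683222) (.d 66667328))) (.n (.n (.d 667686222) (.d 66768663)) (.d 6386637)))) (.n (.n (.n (.n (.n (.d 66666672822) (.d 6386632722)) (.d 667686222)) (.n (.d 637286622) (.d 66768336))) (.n (.d 63823722) (.d 6382376))) (.n (.n (.d 63823722) (.d 6382376)) (.d 872662)))) (.n (.n (.n (.n (.n (.n (.d 66668227626) (.d 6676822266)) (.d 667682223)) (.d 63837222)) (.n (.d 63728232) (.d 6373668))) (.n (.d 8733222) (.d 227668))) (.n (.n (.d 8733222) (.d 872623)) (.d 66768)))) (.n (.n (.n (.n (.n (.n (.n (.n (.d 667826226666) (.d 66862726362)) (.d 8733662622)) (.d 667826226)) (.d 66782232)) (.d 8733222)) (.n (.d 8726262) (.d 873366))) (.n (.d 873222)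 (.d 66782))) (.n (.n (.d 873222) (.d 66786)) (.d 8726)))) (.n (.n (.n (.n (.n (.n (.n (.n (.n (.d 876666262266) (.d 87366266262)) (.d 8762263623)) (.d 873226326)) (.d 87622626)) (.d 8732262)) (.d 876222)) (.n (.d 873222) (.d 87622))) (.n (.d 87222) (.d 3287))) (.n (.n (.d 87222) (.d 8766)) (.d 873)))) (.n (.n (.n (.n (.n (.n (.n (.n (.n (.n (.d 866226266667) (.d 86632622367)) (.d 8362666227)) (.d 863323227)) (.d 87262263)) (.d 8672226)) (.d 867222)) (.d 87222)) (.n (.d 82722) (.d 8726))) (.n (.n (.n (.n (.d 8762222) (.d 873323)) (.d 76823)) (.d 8766)) (.d 867))) (.n (.n (.n (.n (.d 872222) (.d 87222)) (.d 8723)) (.d 876)) (.d 87)))) (.n (.n (.n (.n (.n (.n (.n (.n (.n (.n (.n (.d 866266667262) (.d 82236366627)) (.d 8676622632)) (.d 832323276)) (.d 82262673)) (.d 8226267)) (.d 822327)) (.d 87222)) (.n (.n (.n (.n (.d 83732222) (.d 6387666)) (.d 686766)) (.d 86766)) (.d 2872))) (.n (.n (.n (.n (.d 8372222) (.d 867333)) (.d 83766))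 (.d 2876)) (.d 387))) (.n (.n (.n (.n (.d 872222) (.d 87226)) (.d 7833)) (.d 786)) (.d 87))) (.n (.n (.n (.n (.n (.n (.n (.n (.n (.n (.n (.n (.n (.n (.n (.d 7666666662266822) (.d 866622626636327)) (.d 76666666636268)) (.d 8666226267626)) (.d 866622626732)) (.d 86662323272)) (.d 8262627662)) (.d 822322367)) (.d 82222676)) (.d 8223227)) (.d 822272)) (.n (.d 823731) (.d 83337))) (.n (.d 86731) (.d 8237))) (.n (.d 8671) (.d 687))) (.n (.d 871) (.d 87))) (.n (.n (.n (.n (.n (.n (.n (.n (.d 822222127) (.d 73333338)) (.d 8226672)) (.d 662782)) (.d 68761)) (.d 8721)) (.d 387)) (.d 78)) (.n (.d 78) .e)))))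

/-- largest part 4 -/
def t4 : Cert :=
  (.n (.n (.n (.n (.n (.n (.n (.n (.n (.n (.n (.n (.n (.n (.n .e (.n .e (.d 663676686222363))) (.n (.n .e (.d 666663633222876)) (.d 66367668622236))) (.n (.n (.d 663676686222366) (.d 66262662668337)) (.d 6636766862223))) (.n (.n (.d 66367668622266) (.d 6666636382227)) (.d 622363368276))) (.n (.n (.d 6626262786666) (.d 662626278663)) (.d 66367668623))) (.n (.n (.n (.d 6626262786666) (.d 662626278633)) (.d 66666622876)) (.d 3323876262))) (.n (.n (.n (.n (.n (.n (.d 663676686222626) (.d 62236766833266)) (.d 6668676663322)) (.d 622367683666)) (.d 62236766826)) (.d 6668626726)) (.d 622367683))) (.n (.n (.n (.n (.n (.n (.d 66686766222662) (.d 6636766822232)) (.d 662683736666)) (.d 66367668666)) (.d 6668633766)) (.d 222668637)) (.d 66686267))) (.n (.n (.n (.n (.n (.n (.n (.d 66666762228266) (.d 6223678666363)) (.d 622367866666)) (.d 87622336666)) (.d 6626728636)) (.d 222668337)) (.d 66686766))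 (.d 6626728))) (.n (.n (.n (.n (.n (.n (.n (.n (.n (.n (.d 8766636662626622) (.d 876623662662633)) (.d 66686723323662)) (.d 8762236666636)) (.d 876226666626)) (.d 63832766666)) (.d 2223786663)) (.d 876226323)) (.d 87622626)) (.d 6383276)) (.d 222378))) (.n (.n (.n (.n (.n (.n (.n (.n (.n (.n (.d 876662622666626) (.d 87662666666333)) (.d 8766266666226)) (.d 638676626236)) (.d 87662666336)) (.d 8733666666)) (.d 873362222)) (.d 87332663)) (.d 6386722)) (.d 638676)) (.d 87622))) (.n (.n (.n (.n (.n (.n (.n (.n (.n (.n (.n (.d 666722622666686) (.d 87626632666266)) (.d 2287666666666)) (.d 876622632332)) (.d 87336666226)) (.d 8732666666)) (.d 638766666)) (.d 87666666)) (.d 8733262)) (.d 876233)) (.d 87326)) (.d 8766))) (.n (.n (.n (.n (.n (.n (.n (.n (.n (.n (.n (.n (.n (.n (.d 87366666666266222) (.d 8766662233326236)) (.d 638666666222627)) (.d 87322662266663)) (.d 8736666666663)) (.d 876666223332)) (.d 87666626226)) (.d 8736666666))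 (.d 876363366)) (.d 87233236)) (.d 8732332)) (.d 872663)) (.d 87323)) (.d 8723)) (.d 876))) (.n (.n (.n (.n (.n (.n (.n (.n (.n (.n (.n (.n (.n (.n (.d 8766666626222666) (.d 866662262667662)) (.d 86336636226227)) (.d 8766666636336)) (.d 876666662622)) (.d 87666666666)) (.d 8766666636)) (.d 872226633)) (.d 86222267)) (.d 8722266)) (.d 873323)) (.d 87236)) (.d 8733)) (.d 872)) (.d 87))) (.n (.n (.n (.n (.n (.n (.n (.n (.n (.n (.n (.n (.n (.n (.n (.d 7662662622668666) (.d 766666662662863)) (.d 86666666222273)) (.d 8662226667233)) (.d 823326232667)) (.d 86622266672)) (.d 8233262672)) (.d 822273332)) (.d 86622272)) (.d 8222732)) (.d 822272)) (.n (.d 827231) (.d 73368))) (.n (.d 86721) (.d 3867))) (.n (.d 8371) (.d 678))) (.n (.d 871) (.d 87))) (.n (.n (.n (.n (.n (.n (.n (.n (.d 822222127) (.d 86722632)) (.d 6668227)) (.d 768636)) (.d 37218)) (.d 2738)) (.d 728)) (.d 87)) (.n (.d 87) .e))))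

/-- largest part 3 -/
def t3 : Cert :=
  (.n (.n (.n (.n (.n (.n (.n (.n (.n (.n (.n (.n (.n (.n (.n (.n (.n (.n (.n (.n .e (.d 66666636632372632628)) (.d 6666663663622836722)) (.d 666666666372832226)) (.d 66666686626272263)) (.d 6666668662627226)) (.n (.d 6666666667622281) (.d 666666666372832))) (.n (.d 666666366386671) (.d 63632273262863))) (.n (.d 66666666676821) (.d 6666666663728))) (.n (.d 6666666667681) (.d 666666262827))) (.n (.n (.n (.n (.d 666666866726661) (.d 66732622636668)) (.d 6666663626678)) (.d 666666328371)) (.d 66663223738))) (.n (.n (.n (.n (.d 66666686676661) (.d 2226666283667)) (.d 666663872226)) (.d 66666376823)) (.d 6676622668))) (.n (.n (.n (.n (.n (.n (.n (.d 6666628676666616) (.d 666666328666667)) (.d 66663226722826)) (.d 6666373382322)) (.d 666663768666)) (.d 22332683217)) (.d 6666633687)) (.d 666637328))) (.n (.n (.n (.n (.n (.n (.n (.d 666687666666661) (.d 63632278663623)) (.d 6666638266667)) (.d 666666866667))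 (.d 22332372668)) (.d 2222333678)) (.d 333676863)) (.d 33283273))) (.n (.n (.n (.n (.n (.n (.n (.n (.n (.n (.d 66766286666666616) (.d 6662836666667336)) (.d 666283766666612)) (.d 66666662272682)) (.d 6666668666667)) (.d 666663866667)) (.d 33283271322)) (.d 6683636227)) (.d 667662822)) (.d 66722866)) (.d 2238276))) (.n (.n (.n (.n (.n (.n (.n (.n (.n (.n (.d 6666876666666661) (.d 666282266266267)) (.d 72863666666666)) (.d 6687266666666)) (.d 667662228626)) (.d 22382633627)) (.d 2233278633)) (.d 666682627)) (.d 72863236)) (.d 6687263)) (.d 333687))) (.n (.n (.n (.n (.n (.n (.n (.n (.n (.n (.n (.n (.n (.d 668726666666666616) (.d 66768666666666122)) (.d 6687266663663636)) (.d 667386266666226)) (.d 66766666666866)) (.d 6676866666666)) (.d 728636666336)) (.d 63632228317)) (.d 3336786366)) (.d 667668612)) (.d 66836373)) (.d 6682237)) (.d 223687)) (.d 72863))) (.n (.n (.n (.n (.n (.n (.n (.n (.n (.n (.n (.n (.n (.d 66876666666666661)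 (.d 8736666666666666)) (.d 873233663262666)) (.d 72866666666666)) (.d 7286666662622)) (.d 873666666666)) (.d 33272332238)) (.d 8732266226)) (.d 873323223)) (.d 66221827)) (.d 7282633)) (.d 728633)) (.d 72628)) (.d 7282))) (.n (.n (.n (.n (.n (.n (.n (.n (.n (.n (.n (.n (.n (.n (.n (.n (.d 7286666666666666166) (.d 327666666666666668)) (.d 72866333663336666)) (.d 8736666666666636)) (.d 628663222666637)) (.d 66766262662228)) (.d 8762262662662)) (.d 638336666733)) (.d 72866232323)) (.d 6626663872)) (.d 873666666)) (.d 32766668)) (.d 6623783)) (.d 728122)) (.d 33678)) (.d 3287)) (.d 873))) (.n (.n (.n (.n (.n (.n (.n (.n (.n (.n (.n (.n (.n (.n (.n (.n (.d 876666666666666616) (.d 76333322332266618)) (.d 6266636366227338)) (.d 872332636632263)) (.d 87233332223322)) (.d 6623366327228)) (.d 722323336128)) (.d 62666662867)) (.d 8723312223)) (.d 862222272)) (.d 63733238)) (.d 6233378)) (.d 836673)) (.d 87233)) (.d 7268)) (.d 768)) (.d 87)))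 (.n (.n (.n (.n (.n (.n (.n (.n (.n (.n (.n (.n (.n (.n (.n (.n (.n (.n (.n (.n (.n (.n (.n (.d 866666666622266626672621) (.d 76666666666626632261826)) (.d 6666666663363366683761)) (.d 866666666666266323173)) (.d 76666666333663366866)) (.d 3222363636362626728)) (.d 866636663363766361)) (.d 36666663633676318)) (.d 6666363633666387)) (.d 866636663363766)) (.d 76666633833331)) (.d 7226122836326)) (.d 722222626681)) (.d 23366763866)) (.d 7223122833)) (.d 266668271)) (.d 72261228)) (.d 3272832)) (.d 738322)) (.d 72822)) (.d 2876)) (.d 728)) (.d 87)) (.n (.d 87) .e)))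

/-- largest part 2 -/
def t2 : Cert :=
  (.n (.n (.n (.n (.n (.n (.n (.n (.n (.n (.n (.n (.n (.n (.n (.n (.n (.n (.n (.n (.n (.n (.n (.n (.n (.n (.n (.n (.n (.n .e (.d 666366666632663326322626867213)) (.d 66636666663266332632262686721)) (.d 6663666666326636262336763218)) (.d 666262326332626663363628761)) (.d 66666666662262266273331628)) (.d 6662623263326266633632781)) (.d 666366666632223266132678)) (.d 66666666662262232263781)) (.d 2363262673263166626328)) (.d 666366666632663326378)) (.d 66666666666363673836)) (.d 6663633632236662738)) (.d 666366666632662278)) (.d 33333636666212768)) (.d 6662623263328267)) (.d 666366666633782)) (.d 66666666666783)) (.d 6663661736866)) (.d 666363363872)) (.d 33332322738)) (.d 6663633178)) (.d 333313387)) (.d 62627186)) (.d 3386733)) (.d 766836)) (.d 23738)) (.d 2278)) (.d 867)) (.d 87)) (.n (.d 87) .e))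

/-- largest part 1 -/
def t1 : Cert :=
  (.n (.d 87) .e)

/-- the decision tree -/
def cert : Cert :=
  (.n t61 (.n t60 (.n t59 (.n t58 (.n t57 (.n t56 (.n t55 (.n t54 (.n t53 (.n t52 (.n t51 (.n t50 (.n t49 (.n t48 (.n t47 (.n t46 (.n t45 (.n t44 (.n t43 (.n t42 (.n t41 (.n t40 (.n t39 (.n t38 (.n t37 (.n t36 (.n t35 (.n t34 (.n t33 (.n t32 (.n t31 (.n t30 (.n t29 (.n t28 (.n t27 (.n t26 (.n t25 (.n t24 (.n t23 (.n t22 (.n t21 (.n t20 (.n t19 (.n t18 (.n t17 (.n t16 (.n t15 (.n t14 (.n t13 (.n t12 (.n t11 (.n t10 (.n t9 (.n t8 (.n t7 (.n t6 (.n t5 (.n t4 (.n t3 (.n t2 (.n t1 .e)))))))))))))))))))))))))))))))))))))))))))))))))))))))))))))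

end Pool.Agent.X68.CP.Two
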