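import Pool.Agent.X68.CP.Two

set_option autoImplicit false

namespace Pool.Agent.X68.CP.Two

theorem step {t s : Cert} {m R : ℕ} {pre : List ℕ} (h1 : check ok t m (R - m) (m :: pre) = true)
    (hm : Nat.ble 1 m = true) (h2 : check ok s (m - 1) R pre = true) :
    check ok (.n t s) m R pre = true := by
  simp only [check, h1, h2, hm, Bool.or_true, Bool.and_true]

set_option maxRecDepth 1000000 in
theorem k61 : check ok t61 61 0 [61] = true := by
  decide +kernel

set_option maxRecDepth 1000000 in
theorem k60 : check ok t60 60 1 [60] = true := by
  decide +kernel

set_option maxRecDepth 1000000 in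
theorem k59 : check ok t59 59 2 [59] = true := by
  decide +kernel

set_option maxRecDepth 1000000 in
theorem k58 : check ok t58 58 3 [58] = true := by
  decide +kernel

set_option maxRecDepth 1000000 in
theorem k57 : check ok t57 57 4 [57] = true := by
  decide +kernel

set_option maxRecDepth 1000000 in
theorem k56 : check ok t56 56 5 [56] = true := by
  decide +kernel

set_option maxRecDepth 1000000 in
theorem k55 : check ok t55 55 6 [55] = true := by
  decide +kernel

set_option maxRecDepth 1000000 in
theorem k54 : check ok t54 54 7 [54] = true := by
  decide +kernel

set_option maxRecDepth 1000000 in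
theorem k53 : check ok t53 53 8 [53] = true := by
  decide +kernel

set_option maxRecDepth 1000000 in
theorem k52 : check ok t52 52 9 [52] = true := by
  decide +kernel

set_option maxRecDepth 1000000 in
theorem k51 : check ok t51 51 10 [51] = true := by
  decide +kernel

set_option maxRecDepth 1000000 in
theorem k50 : check ok t50 50 11 [50] = true := by
  decide +kernel

set_option maxRecDepth 1000000 in
theorem k49 : check ok t49 49 12 [49] = true := by
  decide +kernel

set_option maxRecDepth 1000000 in
theorem k48 : check ok t48 48 13 [48] = true := by
  decide +kernel

set_option maxRecDepth 1000000 in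
theorem k47 : check ok t47 47 14 [47] = true := by
  decide +kernel

set_option maxRecDepth 1000000 in
theorem k46 : check ok t46 46 15 [46] = true := by
  decide +kernel

set_option maxRecDepth 1000000 in
theorem k45 : check ok t45 45 16 [45] = true := by
  decide +kernel

set_option maxRecDepth 1000000 in
theorem k44 : check ok t44 44 17 [44] = true := by
  decide +kernel

set_option maxRecDepth 1000000 in
theorem k43 : check ok t43 43 18 [43] = true := by
  decide +kernel

set_option maxRecDepth 1000000 in
theorem k42 : check ok t42 42 19 [42] = true := by
  decide +kernel

set_option maxRecDepth 1000000 in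
theorem k41 : check ok t41 41 20 [41] = true := by
  decide +kernel

set_option maxRecDepth 1000000 in
theorem k40 : check ok t40 40 21 [40] = true := by
  decide +kernel

set_option maxRecDepth 1000000 in
theorem k39 : check ok t39 39 22 [39] = true := by
  decide +kernel

set_option maxRecDepth 1000000 in
theorem k38 : check ok t38 38 23 [38] = true := by
  decide +kernel

set_option maxRecDepth 1000000 in
theorem k37 : check ok t37 37 24 [37] = true := by
  decide +kernel

set_option maxRecDepth 1000000 in
theorem k36 : check ok t36 36 25 [36] = true := by
  decide +kernel

set_option maxRecDepth 1000000 in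
theorem k35 : check ok t35 35 26 [35] = true := by
  decide +kernel

set_option maxRecDepth 1000000 in
theorem k34 : check ok t34 34 27 [34] = true := by
  decide +kernel

set_option maxRecDepth 1000000 in
theorem k33 : check ok t33 33 28 [33] = true := by
  decide +kernel

set_option maxRecDepth 1000000 in
theorem k32 : check ok t32 32 29 [32] = true := by
  decide +kernel

set_option maxRecDepth 1000000 in
theorem k31 : check ok t31 31 30 [31] = true := by
  decide +kernel

set_option maxRecDepth 1000000 in
theorem k30 : check ok t30 30 31 [30] = true := by
  decide +kernel

set_option maxRecDepth 1000000 in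
theorem k29 : check ok t29 29 32 [29] = true := by
  decide +kernel

set_option maxRecDepth 1000000 in
theorem k28 : check ok t28 28 33 [28] = true := by
  decide +kernel

set_option maxRecDepth 1000000 in
theorem k27 : check ok t27 27 34 [27] = true := by
  decide +kernel

set_option maxRecDepth 1000000 in
theorem k26 : check ok t26 26 35 [26] = true := by
  decide +kernel

set_option maxRecDepth 1000000 in
theorem k25 : check ok t25 25 36 [25] = true := by
  decide +kernel

set_option maxRecDepth 1000000 in
theorem k24 : check ok t24 24 37 [24] = true := by
  decide +kernel

set_option maxRecDepth 1000000 in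
theorem k23 : check ok t23 23 38 [23] = true := by
  decide +kernel

set_option maxRecDepth 1000000 in
theorem k22 : check ok t22 22 39 [22] = true := by
  decide +kernel

set_option maxRecDepth 1000000 in
theorem k21 : check ok t21 21 40 [21] = true := by
  decide +kernel

set_option maxRecDepth 1000000 in
theorem k20 : check ok t20 20 41 [20] = true := by
  decide +kernel

set_option maxRecDepth 1000000 in
theorem k19 : check ok t19 19 42 [19] = true := by
  decide +kernel

set_option maxRecDepth 1000000 in
theorem k18 : check ok t18 18 43 [18] = true := by
  decide +kernel

set_option maxRecDepth 1000000 in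
theorem k17 : check ok t17 17 44 [17] = true := by
  decide +kernel

set_option maxRecDepth 1000000 in
theorem k16 : check ok t16 16 45 [16] = true := by
  decide +kernel

set_option maxRecDepth 1000000 in
theorem k15 : check ok t15 15 46 [15] = true := by
  decide +kernel

set_option maxRecDepth 1000000 in
theorem k14 : check ok t14 14 47 [14] = true := by
  decide +kernel

set_option maxRecDepth 1000000 in
theorem k13 : check ok t13 13 48 [13] = true := by
  decide +kernel

set_option maxRecDepth 1000000 in
theorem k12 : check ok t12 12 49 [12] = true := by
  decide +kernel

set_option maxRecDepth 1000000 in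
theorem k11 : check ok t11 11 50 [11] = true := by
  decide +kernel

set_option maxRecDepth 1000000 in
theorem k10 : check ok t10 10 51 [10] = true := by
  decide +kernel

set_option maxRecDepth 1000000 in
theorem k9 : check ok t9 9 52 [9] = true := by
  decide +kernel

set_option maxRecDepth 1000000 in
theorem k8 : check ok t8 8 53 [8] = true := by
  decide +kernel

set_option maxRecDepth 1000000 in
theorem k7 : check ok t7 7 54 [7] = true := by
  decide +kernel

set_option maxRecDepth 1000000 in
theorem k6 : check ok t6 6 55 [6] = true := by
  decide +kernel

set_option maxRecDepth 1000000 in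
theorem k5 : check ok t5 5 56 [5] = true := by
  decide +kernel

set_option maxRecDepth 1000000 in
theorem k4 : check ok t4 4 57 [4] = true := by
  decide +kernel

set_option maxRecDepth 1000000 in
theorem k3 : check ok t3 3 58 [3] = true := by
  decide +kernel

set_option maxRecDepth 1000000 in
theorem k2 : check ok t2 2 59 [2] = true := by
  decide +kernel

set_option maxRecDepth 1000000 in
theorem k1 : check ok t1 1 60 [1] = true := by
  decide +kernel

theorem k0 : check ok .e 0 61 [] = true := by
  decide +kernel

theorem check_cert : check ok cert 61 61 [] = true :=
  step k61 rfl (step k60 rfl (step k59 rfl (step k58 rfl (step k57 rfl (step k56 rfl (step k55 rfl (step k54 rfl (step k53 rfl (step k52 rfl (step k51 rfl (step k50 rfl (step k49 rfl (step k48 rfl (step k47 rfl (step k46 rfl (step k45 rfl (step k44 rfl (step k43 rfl (step k42 rfl (step k41 rfl (step k40 rfl (step k39 rfl (step k38 rfl (step k37 rfl (step k36 rfl (step k35 rfl (step k34 rfl (step k33 rfl (step k32 rfl (step k31 rfl (step k30 rfl (step k29 rfl (step k28 rfl (step k27 rfl (step k26 rfl (step k25 rfl (step k24 rfl (step k23 rfl (step k22 rfl (step k21 rfl (step k20 rfl (step k19 rfl (step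 k18 rfl (step k17 rfl (step k16 rfl (step k15 rfl (step k14 rfl (step k13 rfl (step k12 rfl (step k11 rfl (step k10 rfl (step k9 rfl (step k8 rfl (step k7 rfl (step k6 rfl (step k5 rfl (step k4 rfl (step k3 rfl (step k2 rfl (step k1 rfl (k0)))))))))))))))))))))))))))))))))))))))))))))))))))))))))))))

theorem all_types (M : Multiset ℕ) (hpos : ∀ a ∈ M, 1 ≤ a) (hsum : M.sum = 61) :
    Part T Finset.univ M := by
  have h := check_sound ok (fun M => M.sum = 61 → Real1 M ∨ Real2 M) (by
    intro p m R pre h N hN hR hs
    exact ok_sound p m R pre h N hN hR hs) cert 61 61 [] check_cert M (by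
    intro a ha
    refine ⟨hpos a ha, ?_⟩
    rw [← hsum]
    exact Multiset.le_sum_of_mem ha) hsum
  simp only [Multiset.coe_nil, zero_add] at h
  rcases h hsum with h | h
  · exact part_of_real1 M hpos h
  · exact part_of_real2 M hpos hsum h

end Pool.Agent.X68.CP.Two
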